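import Pool.Agent.T9h16.Rand3.Seq
import Pool.Agent.T9h16.Rand2.Subset

/-!
The expected number of closed walks.
-/

set_option autoImplicit false
set_option linter.unusedSectionVars false

namespace Pool.Agent.T9h16.Rand

open Finset
open scoped Classical

section
variable {n a b k : ℕ}

theorem card_into {α β I γ : Type} [Fintype α] [Fintype β] [Fintype I]
    (T : α → Finset β) (t : ℕ) (hT : ∀ x, (T x).card ≤ t) (s : Finset γ) (f : γ → α)
    (g : γ → I → β) (hinj : ∀ p q, f p = f q → g p = g q → p = q)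
    (hs : ∀ p ∈ s, ∀ i, g p i ∈ T (f p)) :
    s.card ≤ Fintype.card α * t ^ Fintype.card I := by
  have h0 : s.card ≤ (univ.filter fun p : α × (I → β) => ∀ i, p.2 i ∈ T p.1).card := by
    apply card_le_card_of_injOn (fun p => (f p, g p))
    · intro p hp
      rw [mem_coe, mem_filter]
      exact ⟨mem_univ _, hs p (mem_coe.1 hp)⟩
    · intro p _ q _ h
      simp only [Prod.mk.injEq] at h
      exact hinj p q h.1 h.2
  refine h0.trans ?_
  rw [card_filter, Fintype.sum_prod_type]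
  calc ∑ x : α, ∑ g : I → β, (if ∀ i, g i ∈ T x then 1 else 0)
      ≤ ∑ _x : α, t ^ Fintype.card I := by
        apply sum_le_sum
        intro x _
        rw [← card_filter]
        have h1 : (univ.filter fun g : I → β => ∀ i, g i ∈ T x) =
            Fintype.piFinset fun _ : I => T x := by
          ext g
          simp [Fintype.mem_piFinset]
        rw [h1, Fintype.card_piFinset, prod_const, card_univ]
        exact Nat.pow_le_pow_left (hT x) _
    _ = _ := by rw [sum_const, card_univ, smul_eq_mul]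

/-- The type of pairs of pairs of sequences. -/
abbrev Quad (n a b : ℕ) : Type :=
  ((Fin a → Fin n × Bool) × (Fin a → Fin n × Bool)) ×
    ((Fin b → Fin n × Bool) × (Fin b → Fin n × Bool))

theorem card_fn (n a : ℕ) : Fintype.card (Fin a → Fin n × Bool) = (2 * n) ^ a := by
  rw [Fintype.card_fun, Fintype.card_prod, Fintype.card_fin, Fintype.card_fin,
    Fintype.card_bool, mul_comm n 2]

theorem card_Sw : (univ.filter fun p : Quad n a b => univ.image p.2.2 ⊆ univ.image p.2.1).card ≤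
    (2 * n) ^ (2 * a + b) * b ^ b := by
  have h := card_into (α := ((Fin a → Fin n × Bool) × (Fin a → Fin n × Bool)) ×
    (Fin b → Fin n × Bool)) (β := Fin n × Bool) (I := Fin b) (fun x => univ.image x.2) b
    (fun x => card_image_le.trans (by rw [card_univ, Fintype.card_fin]))
    (univ.filter fun p : Quad n a b => univ.image p.2.2 ⊆ univ.image p.2.1)
    (fun p => (p.1, p.2.1)) (fun p => p.2.2) (by
      rintro ⟨p1, p2, p3⟩ ⟨q1, q2, q3⟩ h h'
      simp only [Prod.mk.injEq] at h h'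
      rw [h.1, h.2, h'])
    (fun p hp i => (mem_filter.1 hp).2 (mem_image_of_mem _ (mem_univ i)))
  rwa [Fintype.card_prod, Fintype.card_prod, card_fn, card_fn, Fintype.card_fin, ← pow_add,
    ← pow_add, ← two_mul] at h

theorem card_Su : (univ.filter fun p : Quad n a b => univ.image p.1.2 ⊆ univ.image p.1.1).card ≤
    (2 * n) ^ (a + 2 * b) * a ^ a := by
  have h := card_into (α := ((Fin b → Fin n × Bool) × (Fin b → Fin n × Bool)) ×
    (Fin a → Fin n × Bool)) (β := Fin n × Bool) (I := Fin a) (fun x => univ.image x.2) a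
    (fun x => card_image_le.trans (by rw [card_univ, Fintype.card_fin]))
    (univ.filter fun p : Quad n a b => univ.image p.1.2 ⊆ univ.image p.1.1)
    (fun p => (p.2, p.1.1)) (fun p => p.1.2) (by
      rintro ⟨⟨p1, p2⟩, p3⟩ ⟨⟨q1, q2⟩, q3⟩ h h'
      simp only [Prod.mk.injEq] at h h'
      rw [h.1, h.2, h'])
    (fun p hp i => (mem_filter.1 hp).2 (mem_image_of_mem _ (mem_univ i)))
  rwa [Fintype.card_prod, Fintype.card_prod, card_fn, card_fn, Fintype.card_fin, ← pow_add,
    ← pow_add, ← two_mul, add_comm (2 * b) a] at h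

theorem card_Sc (hab : a + b = k) : (univ.filter fun p : Quad n a b =>
    univ.image p.1.2 ⊆ univ.image p.1.1 ∪ univ.image p.2.1 ∧
    univ.image p.2.2 ⊆ univ.image p.1.1 ∪ univ.image p.2.1).card ≤ (2 * n) ^ k * k ^ k := by
  have h := card_into (α := (Fin a → Fin n × Bool) × (Fin b → Fin n × Bool))
    (β := Fin n × Bool) (I := Fin a ⊕ Fin b) (fun x => univ.image x.1 ∪ univ.image x.2) k
    (fun x => (card_union_le _ _).trans (by
      rw [← hab]
      apply Nat.add_le_add
      · exact card_image_le.trans (by rw [card_univ, Fintype.card_fin])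
      · exact card_image_le.trans (by rw [card_univ, Fintype.card_fin])))
    (univ.filter fun p : Quad n a b =>
      univ.image p.1.2 ⊆ univ.image p.1.1 ∪ univ.image p.2.1 ∧
      univ.image p.2.2 ⊆ univ.image p.1.1 ∪ univ.image p.2.1)
    (fun p => (p.1.1, p.2.1)) (fun p => Sum.elim p.1.2 p.2.2) (by
      rintro ⟨⟨p1, p2⟩, p3, p4⟩ ⟨⟨q1, q2⟩, q3, q4⟩ h h'
      simp only [Prod.mk.injEq] at h h'
      have e1 : p2 = q2 := by
        funext i
        exact congrFun h' (Sum.inl i)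
      have e2 : p4 = q4 := by
        funext i
        exact congrFun h' (Sum.inr i)
      rw [h.1, h.2, e1, e2])
    (by
      rintro p hp (i | i)
      · exact (mem_filter.1 hp).2.1 (mem_image_of_mem _ (mem_univ i))
      · exact (mem_filter.1 hp).2.2 (mem_image_of_mem _ (mem_univ i)))
  rwa [Fintype.card_prod, card_fn, card_fn, Fintype.card_sum, Fintype.card_fin, Fintype.card_fin,
    ← pow_add, hab] at h

theorem card_Sd (hab : a + b = k) : (univ.filter fun p : Quad n a b =>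
    univ.image p.1.2 ⊆ univ.image p.1.1 ∪ univ.image p.2.2 ∧
    univ.image p.2.1 ⊆ univ.image p.1.1 ∪ univ.image p.2.2).card ≤ (2 * n) ^ k * k ^ k := by
  refine le_trans ?_ (card_Sc (n := n) hab)
  apply card_le_card_of_injOn (fun p => (p.1, (p.2.2, p.2.1)))
  · intro p hp
    rw [mem_coe, mem_filter] at hp
    rw [mem_coe, mem_filter]
    exact ⟨mem_univ _, hp.2⟩
  · rintro ⟨p1, p2, p3⟩ _ ⟨q1, q2, q3⟩ _ h
    simp only [Prod.mk.injEq] at h
    rw [h.1, h.2.1, h.2.2]

/-- The two sequences of a clause have no common literals. -/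
theorem Joins.disjoint (hab : a + b = k) {u : Fin a → Fin n × Bool} {w : Fin b → Fin n × Bool}
    {c : Clause n k} (h : Joins u w c) : Disjoint (univ.image u) (univ.image w) := by
  rw [← card_union_eq_card_add_card]
  apply le_antisymm (card_union_le _ _)
  have h1 : (univ.image u ∪ univ.image w).card = a + b := by
    rw [← h, c.card_lits, hab]
  rw [h1]
  apply Nat.add_le_add
  · exact card_image_le.trans (by rw [card_univ, Fintype.card_fin])
  · exact card_image_le.trans (by rw [card_univ, Fintype.card_fin])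

theorem subset_of_union_eq {L : Type} [DecidableEq L] {A B C : Finset L} (h2 : Disjoint A C)
    (h : A ∪ B = A ∪ C) : C ⊆ B := by
  intro l hl
  have h3 : l ∈ A ∪ B := by
    rw [h]
    exact mem_union_right _ hl
  rcases mem_union.1 h3 with h4 | h4
  · exact (disjoint_left.1 h2 h4 hl).elim
  · exact h4

variable {Ω : Type} [Fintype Ω] {z : Ω → Set (Clause n k)}

/-- The probability of one closed walk. -/
theorem prob_walk (hab : a + b = k) {ρ : ℝ} (hρ0 : 0 ≤ ρ) (hρ1 : ρ ≤ 1) (hz : Few z ρ)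
    (p : Quad n a b) :
    ((univ.filter fun ω : Ω => NF (z ω) p.1.1 p.2.1 ∧ NF (z ω) p.1.1 p.2.2 ∧
      NF (z ω) p.1.2 p.2.1 ∧ NF (z ω) p.1.2 p.2.2).card : ℝ) ≤
      Fintype.card Ω * (ρ ^ 4 +
        (if univ.image p.2.2 ⊆ univ.image p.2.1 then ρ ^ 2 else 0) +
        (if univ.image p.1.2 ⊆ univ.image p.1.1 then ρ ^ 2 else 0) +
        (if univ.image p.1.2 ⊆ univ.image p.1.1 ∪ univ.image p.2.1 ∧
          univ.image p.2.2 ⊆ univ.image p.1.1 ∪ univ.image p.2.1 then ρ ^ 2 + ρ else 0) +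
        (if univ.image p.1.2 ⊆ univ.image p.1.1 ∪ univ.image p.2.2 ∧
          univ.image p.2.1 ⊆ univ.image p.1.1 ∪ univ.image p.2.2 then ρ ^ 2 else 0)) := by
  obtain ⟨⟨u, u'⟩, w, w'⟩ := p
  simp only
  have hX0 : (0 : ℝ) ≤ Fintype.card Ω := Nat.cast_nonneg _
  -- nonnegativity of the terms
  have hi : ∀ (q : Prop) [Decidable q] (y : ℝ), 0 ≤ y → 0 ≤ (if q then y else 0) := by
    intro q _ y hy
    split_ifs
    · exact hy
    · exact le_rfl
  have h4 : 0 ≤ ρ ^ 4 := by positivity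
  have h2 : 0 ≤ ρ ^ 2 := by positivity
  have h21 : 0 ≤ ρ ^ 2 + ρ := by positivity
  obtain ⟨t1, ht1⟩ : ∃ t1 : ℝ, t1 = if univ.image w' ⊆ univ.image w then ρ ^ 2 else 0 := ⟨_, rfl⟩
  obtain ⟨t2, ht2⟩ : ∃ t2 : ℝ, t2 = if univ.image u' ⊆ univ.image u then ρ ^ 2 else 0 := ⟨_, rfl⟩
  obtain ⟨t3, ht3⟩ : ∃ t3 : ℝ, t3 = if univ.image u' ⊆ univ.image u ∪ univ.image w ∧
          univ.image w' ⊆ univ.image u ∪ univ.image w then ρ ^ 2 + ρ else 0 := ⟨_, rfl⟩
  obtain ⟨t4, ht4⟩ : ∃ t4 : ℝ, t4 = if univ.image u' ⊆ univ.image u ∪ univ.image w' ∧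
          univ.image w ⊆ univ.image u ∪ univ.image w' then ρ ^ 2 else 0 := ⟨_, rfl⟩
  rw [← ht1, ← ht2, ← ht3, ← ht4]
  have hn1 : 0 ≤ t1 := ht1 ▸ hi _ _ h2
  have hn2 : 0 ≤ t2 := ht2 ▸ hi _ _ h2
  have hn3 : 0 ≤ t3 := ht3 ▸ hi _ _ h21
  have hn4 : 0 ≤ t4 := ht4 ▸ hi _ _ h2
  by_cases hex : (∃ c : Clause n k, Joins u w c) ∧ (∃ c : Clause n k, Joins u w' c) ∧
      (∃ c : Clause n k, Joins u' w c) ∧ (∃ c : Clause n k, Joins u' w' c)
  swap
  · have h0 : (univ.filter fun ω : Ω => NF (z ω) u w ∧ NF (z ω) u w' ∧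
        NF (z ω) u' w ∧ NF (z ω) u' w') = ∅ := by
      rw [filter_eq_empty_iff]
      rintro ω - ⟨⟨c1, -, h1⟩, ⟨c2, -, h2⟩, ⟨c3, -, h3⟩, ⟨c4, -, h4⟩⟩
      exact hex ⟨⟨c1, h1⟩, ⟨c2, h2⟩, ⟨c3, h3⟩, ⟨c4, h4⟩⟩
    rw [h0, card_empty, Nat.cast_zero]
    apply mul_nonneg hX0
    linarith
  obtain ⟨⟨c1, h1⟩, ⟨c2, h2'⟩, ⟨c3, h3⟩, ⟨c4, h4'⟩⟩ := hex
  have hbound : ∀ (Z : Finset (Clause n k)) (j : ℕ), Z ⊆ {c1, c2, c3, c4} → j ≤ Z.card →
      ((univ.filter fun ω : Ω => NF (z ω) u w ∧ NF (z ω) u w' ∧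
        NF (z ω) u' w ∧ NF (z ω) u' w').card : ℝ) ≤ Fintype.card Ω * ρ ^ j := by
    intro Z j hZ hj
    have hsub : (univ.filter fun ω : Ω => NF (z ω) u w ∧ NF (z ω) u w' ∧
        NF (z ω) u' w ∧ NF (z ω) u' w') ⊆ univ.filter fun ω : Ω => ∀ e ∈ Z, e ∈ z ω := by
      intro ω hω
      rw [mem_filter] at hω ⊢
      obtain ⟨-, ⟨d1, hd1, g1⟩, ⟨d2, hd2, g2⟩, ⟨d3, hd3, g3⟩, ⟨d4, hd4, g4⟩⟩ := hω
      refine ⟨mem_univ _, fun e he => ?_⟩
      have he' := hZ he
      simp only [mem_insert, mem_singleton] at he'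
      rcases he' with rfl | rfl | rfl | rfl
      · rw [h1.unique g1]
        exact hd1
      · rw [h2'.unique g2]
        exact hd2
      · rw [h3.unique g3]
        exact hd3
      · rw [h4'.unique g4]
        exact hd4
    have hc : ((univ.filter fun ω : Ω => NF (z ω) u w ∧ NF (z ω) u w' ∧
        NF (z ω) u' w ∧ NF (z ω) u' w').card : ℝ) ≤
        ((univ.filter fun ω : Ω => ∀ e ∈ Z, e ∈ z ω).card : ℝ) := by
      exact_mod_cast card_le_card hsub
    refine hc.trans ((hz Z).trans ?_)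
    apply mul_le_mul_of_nonneg_left _ hX0
    exact pow_le_pow_of_le_one hρ0 hρ1 hj
  have hd2 := h2'.disjoint hab
  have hd3 := h3.disjoint hab
  have hd4 := h4'.disjoint hab
  -- coinciding clauses
  have e12 : c1 = c2 → univ.image w' ⊆ univ.image w := by
    rintro rfl
    exact subset_of_union_eq hd2 (h1.symm.trans h2')
  have e34 : c3 = c4 → univ.image w' ⊆ univ.image w := by
    rintro rfl
    exact subset_of_union_eq hd4 (h3.symm.trans h4')
  have e13 : c1 = c3 → univ.image u' ⊆ univ.image u := by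
    rintro rfl
    refine subset_of_union_eq hd3.symm ?_
    rw [union_comm, union_comm (univ.image w)]
    exact h1.symm.trans h3
  have e24 : c2 = c4 → univ.image u' ⊆ univ.image u := by
    rintro rfl
    refine subset_of_union_eq hd4.symm ?_
    rw [union_comm, union_comm (univ.image w')]
    exact h2'.symm.trans h4'
  have e14 : c1 = c4 → univ.image u' ⊆ univ.image u ∪ univ.image w ∧
      univ.image w' ⊆ univ.image u ∪ univ.image w := by
    rintro rfl
    have h5 : univ.image u ∪ univ.image w = univ.image u' ∪ univ.image w' := h1.symm.trans h4'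
    rw [h5]
    exact ⟨subset_union_left, subset_union_right⟩
  have e23 : c2 = c3 → univ.image u' ⊆ univ.image u ∪ univ.image w' ∧
      univ.image w ⊆ univ.image u ∪ univ.image w' := by
    rintro rfl
    have h5 : univ.image u ∪ univ.image w' = univ.image u' ∪ univ.image w := h2'.symm.trans h3
    rw [h5]
    exact ⟨subset_union_left, subset_union_right⟩
  by_cases hu : univ.image u' ⊆ univ.image u
  · by_cases hw : univ.image w' ⊆ univ.image w
    · -- one clause
      have h5 := hbound {c1} 1 (by simp) (by simp)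
      rw [pow_one] at h5
      refine h5.trans (mul_le_mul_of_nonneg_left ?_ hX0)
      rw [if_pos ⟨hu.trans subset_union_left, hw.trans subset_union_right⟩] at ht3
      linarith
    · -- two clauses
      have hne : c1 ≠ c2 := fun h => hw (e12 h)
      have h5 := hbound {c1, c2} 2 (by
        intro c hc
        simp only [mem_insert, mem_singleton] at hc ⊢
        tauto) (by rw [card_pair hne])
      refine h5.trans (mul_le_mul_of_nonneg_left ?_ hX0)
      rw [if_pos hu] at ht2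
      linarith
  · have hne : c1 ≠ c3 := fun h => hu (e13 h)
    have h5 := hbound {c1, c3} 2 (by
      intro c hc
      simp only [mem_insert, mem_singleton] at hc ⊢
      tauto) (by rw [card_pair hne])
    by_cases hw : univ.image w' ⊆ univ.image w
    · refine h5.trans (mul_le_mul_of_nonneg_left ?_ hX0)
      rw [if_pos hw] at ht1
      linarith
    · by_cases hc : c1 = c4
      · refine h5.trans (mul_le_mul_of_nonneg_left ?_ hX0)
        rw [if_pos (e14 hc)] at ht3
        linarith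
      · by_cases hd : c2 = c3
        · refine h5.trans (mul_le_mul_of_nonneg_left ?_ hX0)
          rw [if_pos (e23 hd)] at ht4
          linarith
        · -- four clauses
          have h12 : c1 ≠ c2 := fun h => hw (e12 h)
          have h34 : c3 ≠ c4 := fun h => hw (e34 h)
          have h24 : c2 ≠ c4 := fun h => hu (e24 h)
          have h6 := hbound {c1, c2, c3, c4} 4 subset_rfl (by
            rw [card_insert_of_notMem, card_insert_of_notMem, card_pair h34]
            · simp only [mem_insert, mem_singleton]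
              tauto
            · simp only [mem_insert, mem_singleton]
              tauto)
          refine h6.trans (mul_le_mul_of_nonneg_left ?_ hX0)
          linarith

/-- The expected number of closed walks. -/
theorem sum_wk (hab : a + b = k) (ha : 1 ≤ a) (hle : a ≤ b) (hn : 0 < n) {ρ : ℝ} (hρ0 : 0 ≤ ρ)
    (hρ1 : ρ ≤ 1) (hz : Few z ρ) :
    (∑ ω : Ω, (wk a b (z ω) : ℝ)) ≤ Fintype.card Ω *
      ((2 * n : ℝ) ^ (2 * k) * ρ ^ 4 + 4 * (k : ℝ) ^ k * (2 * n : ℝ) ^ (k + b) * ρ ^ 2 +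
        (k : ℝ) ^ k * (2 * n : ℝ) ^ k * ρ) := by
  have hX0 : (0 : ℝ) ≤ Fintype.card Ω := Nat.cast_nonneg _
  have h1 : ∑ ω : Ω, (wk a b (z ω) : ℝ) = ∑ p : Quad n a b,
      ((univ.filter fun ω : Ω => NF (z ω) p.1.1 p.2.1 ∧ NF (z ω) p.1.1 p.2.2 ∧
        NF (z ω) p.1.2 p.2.1 ∧ NF (z ω) p.1.2 p.2.2).card : ℝ) := by
    unfold wk
    simp only [card_filter]
    push_cast
    exact sum_comm
  rw [h1]
  refine (sum_le_sum fun p _ => prob_walk hab hρ0 hρ1 hz p).trans ?_
  rw [← mul_sum]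
  apply mul_le_mul_of_nonneg_left _ hX0
  simp only [sum_add_distrib]
  rw [← sum_filter, ← sum_filter, ← sum_filter, ← sum_filter]
  simp only [sum_const, nsmul_eq_mul, card_univ]
  have hcard : (Fintype.card (Quad n a b) : ℝ) = (2 * n : ℝ) ^ (2 * k) := by
    rw [Fintype.card_prod, Fintype.card_prod, Fintype.card_prod, card_fn, card_fn]
    push_cast
    rw [← pow_add, ← pow_add, ← pow_add, ← hab]
    congr 1
    ring
  rw [hcard]
  have hn1 : (1 : ℝ) ≤ 2 * n := by
    have : (1 : ℝ) ≤ n := by exact_mod_cast hn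
    linarith
  have hk1 : 1 ≤ k := by omega
  have hkR : (1 : ℝ) ≤ k := by exact_mod_cast hk1
  -- the four counts
  have g1 : ((univ.filter fun p : Quad n a b => univ.image p.2.2 ⊆ univ.image p.2.1).card : ℝ) ≤
      (k : ℝ) ^ k * (2 * n : ℝ) ^ (k + b) := by
    have h2 : ((univ.filter fun p : Quad n a b => univ.image p.2.2 ⊆ univ.image p.2.1).card : ℝ) ≤
        (2 * n : ℝ) ^ (2 * a + b) * (b : ℝ) ^ b := by exact_mod_cast card_Sw (n := n)
    refine h2.trans ?_
    rw [mul_comm]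
    apply mul_le_mul
    · calc (b : ℝ) ^ b ≤ (k : ℝ) ^ b := pow_le_pow_left₀ (Nat.cast_nonneg _) (by
            exact_mod_cast (by omega : b ≤ k)) _
        _ ≤ (k : ℝ) ^ k := pow_le_pow_right₀ hkR (by omega)
    · exact pow_le_pow_right₀ hn1 (by omega)
    · positivity
    · positivity
  have g2 : ((univ.filter fun p : Quad n a b => univ.image p.1.2 ⊆ univ.image p.1.1).card : ℝ) ≤
      (k : ℝ) ^ k * (2 * n : ℝ) ^ (k + b) := by
    have h2 : ((univ.filter fun p : Quad n a b => univ.image p.1.2 ⊆ univ.image p.1.1).card : ℝ) ≤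
        (2 * n : ℝ) ^ (a + 2 * b) * (a : ℝ) ^ a := by exact_mod_cast card_Su (n := n)
    refine h2.trans ?_
    rw [mul_comm]
    apply mul_le_mul
    · calc (a : ℝ) ^ a ≤ (k : ℝ) ^ a := pow_le_pow_left₀ (Nat.cast_nonneg _) (by
            exact_mod_cast (by omega : a ≤ k)) _
        _ ≤ (k : ℝ) ^ k := pow_le_pow_right₀ hkR (by omega)
    · exact pow_le_pow_right₀ hn1 (by omega)
    · positivity
    · positivity
  have g3 : ((univ.filter fun p : Quad n a b =>
      univ.image p.1.2 ⊆ univ.image p.1.1 ∪ univ.image p.2.1 ∧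
      univ.image p.2.2 ⊆ univ.image p.1.1 ∪ univ.image p.2.1).card : ℝ) ≤
      (k : ℝ) ^ k * (2 * n : ℝ) ^ k := by
    have h2 : ((univ.filter fun p : Quad n a b =>
      univ.image p.1.2 ⊆ univ.image p.1.1 ∪ univ.image p.2.1 ∧
      univ.image p.2.2 ⊆ univ.image p.1.1 ∪ univ.image p.2.1).card : ℝ) ≤
        (2 * n : ℝ) ^ k * (k : ℝ) ^ k := by exact_mod_cast card_Sc (n := n) hab
    rwa [mul_comm] at h2
  have g4 : ((univ.filter fun p : Quad n a b =>
      univ.image p.1.2 ⊆ univ.image p.1.1 ∪ univ.image p.2.2 ∧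
      univ.image p.2.1 ⊆ univ.image p.1.1 ∪ univ.image p.2.2).card : ℝ) ≤
      (k : ℝ) ^ k * (2 * n : ℝ) ^ k := by
    have h2 : ((univ.filter fun p : Quad n a b =>
      univ.image p.1.2 ⊆ univ.image p.1.1 ∪ univ.image p.2.2 ∧
      univ.image p.2.1 ⊆ univ.image p.1.1 ∪ univ.image p.2.2).card : ℝ) ≤
        (2 * n : ℝ) ^ k * (k : ℝ) ^ k := by exact_mod_cast card_Sd (n := n) hab
    rwa [mul_comm] at h2
  have g5 : (2 * n : ℝ) ^ k ≤ (2 * n : ℝ) ^ (k + b) := pow_le_pow_right₀ hn1 (by omega)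
  have g6 : (k : ℝ) ^ k * (2 * n : ℝ) ^ k ≤ (k : ℝ) ^ k * (2 * n : ℝ) ^ (k + b) :=
    mul_le_mul_of_nonneg_left g5 (by positivity)
  have h2 : 0 ≤ ρ ^ 2 := by positivity
  have i1 := mul_le_mul_of_nonneg_right g1 h2
  have i2 := mul_le_mul_of_nonneg_right g2 h2
  have i3 := mul_le_mul_of_nonneg_right g3 (by positivity : (0 : ℝ) ≤ ρ ^ 2 + ρ)
  have i4 := mul_le_mul_of_nonneg_right g4 h2
  have i5 := mul_le_mul_of_nonneg_right g6 h2
  have i6 : (k : ℝ) ^ k * (2 * n : ℝ) ^ k * (ρ ^ 2 + ρ) =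
      (k : ℝ) ^ k * (2 * n : ℝ) ^ k * ρ ^ 2 + (k : ℝ) ^ k * (2 * n : ℝ) ^ k * ρ := by ring
  have i7 : 4 * (k : ℝ) ^ k * (2 * n : ℝ) ^ (k + b) * ρ ^ 2 =
      4 * ((k : ℝ) ^ k * (2 * n : ℝ) ^ (k + b) * ρ ^ 2) := by ring
  rw [i7]
  linarith

end

end Pool.Agent.T9h16.Rand
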