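import Pool.Agent.T9h16.Rand3.OneNot

/-!
A polynomial-size refuter for random `k`-SAT with one NOT gate.
-/

set_option autoImplicit false
set_option linter.unusedSectionVars false

namespace Pool.Agent.T9h16.Rand

open Finset
open scoped Classical
open Pool.Agent.LN (Circuit)

/-- The numerical part. -/
theorem walk_numbers {k b : ℕ} {n m M D : ℝ} (hk : 2 ≤ k) (hkb : k ≤ 2 * b) (hD : 1 ≤ D)
    (hM : 0 < M) (hm : 0 < m) (hmM : m ≤ M) (hn : D * 23040 ^ k ≤ n)
    (hseq : n * (2 * n) ^ k ≤ n * (M * k.factorial) + (k : ℝ) ^ 2 * (2 * n) ^ k)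
    (hMk : M * k.factorial ≤ (2 * n) ^ k)
    (hm2 : 768 * 4 ^ k * D * (k : ℝ) ^ k * (2 * n) ^ (k + b) ≤ (m * k.factorial) ^ 2) :
    (2 * n) ^ (2 * k) * ((2 * n) ^ (2 * k) * (m / M) ^ 4 +
      4 * (k : ℝ) ^ k * (2 * n) ^ (k + b) * (m / M) ^ 2 + (k : ℝ) ^ k * (2 * n) ^ k * (m / M)) ≤
      (m * k.factorial) ^ 4 * (1 + 1 / (16 * 4 ^ k * D)) := by
  have hf1 : (1 : ℝ) ≤ k.factorial := by exact_mod_cast Nat.factorial_pos k
  obtain ⟨f, hf⟩ : ∃ f : ℝ, f = k.factorial := ⟨_, rfl⟩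
  rw [← hf] at hseq hMk hm2 hf1 ⊢
  obtain ⟨N, hN⟩ : ∃ N : ℝ, N = 2 * n := ⟨_, rfl⟩
  rw [← hN] at hseq hMk hm2 ⊢
  obtain ⟨G, hG⟩ : ∃ G : ℝ, G = 4 ^ k * D := ⟨_, rfl⟩
  obtain ⟨κ, hκ⟩ : ∃ κ : ℝ, κ = (k : ℝ) ^ k := ⟨_, rfl⟩
  have hkR : (1 : ℝ) ≤ k := by exact_mod_cast (by omega : 1 ≤ k)
  have hκ1 : 1 ≤ κ := hκ ▸ one_le_pow₀ hkR
  have h41 : (1 : ℝ) ≤ 4 ^ k := one_le_pow₀ (by norm_num)
  have hG1 : 1 ≤ G := by rw [hG]; nlinarith
  have hkk : (k : ℝ) ^ 2 ≤ 4 ^ k := by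
    have h1 : k ^ 2 ≤ 4 ^ k := by
      calc k ^ 2 ≤ (2 ^ k) ^ 2 := Nat.pow_le_pow_left Nat.lt_two_pow_self.le 2
        _ = 4 ^ k := by rw [← pow_mul, mul_comm, pow_mul]; norm_num
    exact_mod_cast h1
  -- `n` is large
  have hn1 : 1440 * G * (k : ℝ) ^ 2 ≤ n := by
    refine le_trans ?_ hn
    have h1 : (1440 : ℝ) * 4 ^ k * 4 ^ k ≤ 23040 ^ k := by
      have h2 : (1440 : ℝ) ≤ 1440 ^ k := by
        calc (1440 : ℝ) = 1440 ^ 1 := (pow_one _).symm
          _ ≤ 1440 ^ k := pow_le_pow_right₀ (by norm_num) (by omega)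
      calc (1440 : ℝ) * 4 ^ k * 4 ^ k ≤ 1440 ^ k * 4 ^ k * 4 ^ k := by
            apply mul_le_mul_of_nonneg_right _ (by positivity)
            exact mul_le_mul_of_nonneg_right h2 (by positivity)
        _ = 23040 ^ k := by
            rw [← mul_pow, ← mul_pow]
            norm_num
    have hD0 : 0 ≤ D := by linarith
    calc 1440 * G * (k : ℝ) ^ 2 = D * (1440 * 4 ^ k * (k : ℝ) ^ 2) := by rw [hG]; ring
      _ ≤ D * (1440 * 4 ^ k * 4 ^ k) := by
          apply mul_le_mul_of_nonneg_left _ hD0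
          exact mul_le_mul_of_nonneg_left hkk (by positivity)
      _ ≤ D * 23040 ^ k := mul_le_mul_of_nonneg_left h1 hD0
  have hk2 : (1 : ℝ) ≤ (k : ℝ) ^ 2 := one_le_pow₀ hkR
  have hGk : G * (k : ℝ) ^ 2 ≥ (k : ℝ) ^ 2 := by nlinarith
  have hn0 : 1440 ≤ n := by nlinarith
  have hnk : 0 < n - (k : ℝ) ^ 2 := by nlinarith
  have hN1 : 1 ≤ N := by rw [hN]; linarith
  have hN0 : 0 < N := by linarith
  obtain ⟨lam, hlam⟩ : ∃ lam : ℝ, lam = N ^ k * (m / M) := ⟨_, rfl⟩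
  obtain ⟨μ, hμ⟩ : ∃ μ : ℝ, μ = m * f := ⟨_, rfl⟩
  have hμ0 : 0 < μ := by rw [hμ]; positivity
  have hlam0 : 0 ≤ lam := by rw [hlam]; positivity
  obtain ⟨ε, hε⟩ : ∃ ε : ℝ, ε = 1 / (720 * G) := ⟨_, rfl⟩
  have hε0 : 0 < ε := by rw [hε]; positivity
  have hε1 : ε ≤ 1 / 720 := by
    rw [hε]
    apply one_div_le_one_div_of_le (by norm_num)
    linarith
  -- `lam ≤ μ (1 + ε)`
  have hl1 : lam * (n - (k : ℝ) ^ 2) ≤ n * μ := by
    have h1 : (n - (k : ℝ) ^ 2) * N ^ k ≤ n * (M * f) := by linarith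
    have h2 : lam * (n - (k : ℝ) ^ 2) = (n - (k : ℝ) ^ 2) * N ^ k * (m / M) := by
      rw [hlam]
      ring
    rw [h2]
    calc (n - (k : ℝ) ^ 2) * N ^ k * (m / M) ≤ n * (M * f) * (m / M) :=
          mul_le_mul_of_nonneg_right h1 (by positivity)
      _ = n * μ := by
          rw [hμ]
          field_simp
  have hl2 : lam ≤ μ * (1 + ε) := by
    have h1 : n ≤ (1 + ε) * (n - (k : ℝ) ^ 2) := by
      have h2 : ε * (1440 * G * (k : ℝ) ^ 2) ≤ ε * n := mul_le_mul_of_nonneg_left hn1 hε0.le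
      have h3 : ε * (1440 * G * (k : ℝ) ^ 2) = 2 * (k : ℝ) ^ 2 := by
        rw [hε]
        field_simp
        ring
      nlinarith
    have h2 : lam * (n - (k : ℝ) ^ 2) ≤ μ * (1 + ε) * (n - (k : ℝ) ^ 2) := by
      calc lam * (n - (k : ℝ) ^ 2) ≤ n * μ := hl1
        _ ≤ ((1 + ε) * (n - (k : ℝ) ^ 2)) * μ := mul_le_mul_of_nonneg_right h1 hμ0.le
        _ = _ := by ring
    exact le_of_mul_le_mul_right h2 hnk
  have hl3 : lam ≤ 2 * μ := by
    refine hl2.trans ?_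
    nlinarith
  -- the three terms
  have t1 : lam ^ 4 ≤ μ ^ 4 * (1 + 1 / (48 * G)) := by
    have h1 : lam ^ 4 ≤ (μ * (1 + ε)) ^ 4 := pow_le_pow_left₀ hlam0 hl2 4
    have h2 : (1 + ε) ^ 4 ≤ 1 + 15 * ε := by nlinarith [pow_pos hε0 2, pow_pos hε0 3, pow_pos hε0 4]
    have h3 : 15 * ε = 1 / (48 * G) := by
      rw [hε]
      field_simp
      norm_num
    calc lam ^ 4 ≤ (μ * (1 + ε)) ^ 4 := h1
      _ = μ ^ 4 * (1 + ε) ^ 4 := by ring
      _ ≤ μ ^ 4 * (1 + 15 * ε) := mul_le_mul_of_nonneg_left h2 (by positivity)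
      _ = _ := by rw [h3]
  have hA : 768 * G * κ * N ^ (k + b) ≤ μ ^ 2 := by
    rw [hG, hκ, hμ]
    refine le_trans (le_of_eq ?_) hm2
    ring
  have t2 : 4 * κ * N ^ (k + b) * lam ^ 2 ≤ μ ^ 4 * (1 / (48 * G)) := by
    have h1 : lam ^ 2 ≤ (2 * μ) ^ 2 := pow_le_pow_left₀ hlam0 hl3 2
    have h2 : 4 * κ * N ^ (k + b) * lam ^ 2 ≤ 4 * κ * N ^ (k + b) * (2 * μ) ^ 2 :=
      mul_le_mul_of_nonneg_left h1 (by positivity)
    refine h2.trans ?_
    rw [mul_one_div, le_div_iff₀ (by positivity)]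
    calc 4 * κ * N ^ (k + b) * (2 * μ) ^ 2 * (48 * G)
        = (768 * G * κ * N ^ (k + b)) * μ ^ 2 := by ring
      _ ≤ μ ^ 2 * μ ^ 2 := mul_le_mul_of_nonneg_right hA (by positivity)
      _ = μ ^ 4 := by ring
  have hμN : μ ≤ N ^ k := by
    calc μ = m * f := hμ
      _ ≤ M * f := mul_le_mul_of_nonneg_right hmM (by linarith)
      _ ≤ N ^ k := hMk
  have hμ3 : 96 * G * κ * N ^ (2 * k) ≤ μ ^ 3 := by
    have h1 : (768 * G * κ * N ^ (k + b)) ^ 2 ≤ (μ ^ 2) ^ 2 :=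
      pow_le_pow_left₀ (by positivity) hA 2
    have hGκ : 1 ≤ G * κ := by nlinarith
    have h2 : (96 * G * κ * N ^ (2 * k)) * N ^ k ≤ (768 * G * κ * N ^ (k + b)) ^ 2 := by
      have h3 : N ^ (3 * k) ≤ N ^ (2 * (k + b)) := pow_le_pow_right₀ hN1 (by omega)
      calc (96 * G * κ * N ^ (2 * k)) * N ^ k = 96 * (G * κ) * N ^ (3 * k) := by
            rw [show 3 * k = 2 * k + k by ring, pow_add N (2 * k) k]
            ring
        _ ≤ (768 * (G * κ)) ^ 2 * N ^ (3 * k) := by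
            apply mul_le_mul_of_nonneg_right _ (by positivity)
            nlinarith
        _ ≤ (768 * (G * κ)) ^ 2 * N ^ (2 * (k + b)) :=
            mul_le_mul_of_nonneg_left h3 (by positivity)
        _ = _ := by
            rw [mul_comm 2 (k + b), pow_mul]
            ring
    have h4 : (96 * G * κ * N ^ (2 * k)) * N ^ k ≤ μ ^ 3 * N ^ k := by
      calc (96 * G * κ * N ^ (2 * k)) * N ^ k ≤ (μ ^ 2) ^ 2 := h2.trans h1
        _ = μ ^ 3 * μ := by ring
        _ ≤ μ ^ 3 * N ^ k := mul_le_mul_of_nonneg_left hμN (by positivity)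
    exact le_of_mul_le_mul_right h4 (by positivity)
  have t3 : κ * N ^ (2 * k) * lam ≤ μ ^ 4 * (1 / (48 * G)) := by
    have h2 : κ * N ^ (2 * k) * lam ≤ κ * N ^ (2 * k) * (2 * μ) :=
      mul_le_mul_of_nonneg_left hl3 (by positivity)
    refine h2.trans ?_
    rw [mul_one_div, le_div_iff₀ (by positivity)]
    calc κ * N ^ (2 * k) * (2 * μ) * (48 * G) = (96 * G * κ * N ^ (2 * k)) * μ := by ring
      _ ≤ μ ^ 3 * μ := mul_le_mul_of_nonneg_right hμ3 hμ0.le
      _ = μ ^ 4 := by ring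
  have hexp : N ^ (2 * k) * (N ^ (2 * k) * (m / M) ^ 4 +
      4 * κ * N ^ (k + b) * (m / M) ^ 2 + κ * N ^ k * (m / M)) =
      lam ^ 4 + 4 * κ * N ^ (k + b) * lam ^ 2 + κ * N ^ (2 * k) * lam := by
    rw [hlam]
    have e1 : N ^ (2 * k) = (N ^ k) ^ 2 := by rw [mul_comm, pow_mul]
    rw [e1]
    ring
  rw [← hκ, hexp, ← hμ]
  have e3 : (1 : ℝ) / (16 * 4 ^ k * D) = 3 * (1 / (48 * G)) := by
    rw [hG]
    field_simp
    norm_num
  rw [e3]
  linarith

variable {n k m : ℕ}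

/-- A refuter with one NOT gate. -/
theorem one_not {K : ℕ} (hK : 100000 ≤ K) (hk : 2 ≤ k) {D : ℕ} (hD : 1 ≤ D)
    (hn : D * K ^ k ≤ n) (hm : D * (K * k) ^ k * n ^ (k + (k + 1) / 2) ≤ m ^ 2) :
    ∃ C : Circuit (Clause n k), C.nots ≤ 1 ∧ C.size ≤ (n + 1) ^ (K * k) ∧
      (∀ F : Set (Clause n k), Satisfiable F → ¬ Acc' C F) ∧
      {F : Set (Clause n k) | F.ncard = m ∧ ¬ Acc' C F}.ncard * D ≤
        (Nat.card (Clause n k)).choose m := by
  obtain ⟨a, ha⟩ : ∃ a, a = k / 2 := ⟨_, rfl⟩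
  obtain ⟨b, hb⟩ : ∃ b, b = (k + 1) / 2 := ⟨_, rfl⟩
  have hab : a + b = k := by omega
  have ha1 : 1 ≤ a := by omega
  have hle : a ≤ b := by omega
  have hb1 : 1 ≤ b := by omega
  rw [← hb] at hm
  have hK0 : 0 < K := by omega
  have hnK : K ≤ n := by
    calc K = 1 * K ^ 1 := by rw [one_mul, pow_one]
      _ ≤ D * K ^ k := Nat.mul_le_mul hD (Nat.pow_le_pow_right hK0 (by omega))
      _ ≤ n := hn
  have hn0 : 0 < n := by omega
  -- the threshold
  obtain ⟨X, hX⟩ : ∃ X, X = (m * k.factorial) ^ 4 * (16 * 4 ^ k + 1) := ⟨_, rfl⟩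
  obtain ⟨Y, hY⟩ : ∃ Y, Y = 16 * 4 ^ k * (2 * n) ^ (2 * k) := ⟨_, rfl⟩
  have hY0 : 0 < Y := by rw [hY]; positivity
  have hex : ∃ t, X ≤ Y * t := ⟨X, Nat.le_mul_of_pos_left _ hY0⟩
  obtain ⟨T, hT⟩ : ∃ T, T = Nat.find hex := ⟨_, rfl⟩
  have hT1 : X ≤ Y * T := hT ▸ Nat.find_spec hex
  have hT2 : ∀ t, X ≤ Y * t → T ≤ t := fun t ht => hT ▸ Nat.find_min' hex ht
  obtain ⟨C, hC1, hC2, hC3⟩ := exists_walk_circuit (n := n) (k := k) a b m T
  have hquad : Fintype.card (Quad n a b) = (2 * n) ^ (2 * k) := by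
    rw [Fintype.card_prod, Fintype.card_prod, Fintype.card_prod, card_fn, card_fn]
    rw [← pow_add, ← pow_add, ← pow_add, ← hab]
    congr 1
    ring
  have hMle : Fintype.card (Clause n k) ≤ (2 * n) ^ k := by
    have := card_Cl_le (V := Fin n) (isCl (n := n) (k := k))
    rwa [Fintype.card_fin] at this
  refine ⟨C, hC1, ?_, ?_, ?_⟩
  · -- the size
    refine hC2.trans ?_
    rw [hquad]
    obtain ⟨Z, hZ⟩ : ∃ Z, Z = (2 * n) ^ (2 * k) := ⟨_, rfl⟩
    rw [← hZ]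
    have hZ1 : 1 ≤ Z := by rw [hZ]; exact Nat.one_le_pow _ _ (by omega)
    have hMZ : Fintype.card (Clause n k) ≤ Z := by
      refine hMle.trans ?_
      rw [hZ]
      exact Nat.pow_le_pow_right (by omega) (by omega)
    have h1 : 2 * (Fintype.card (Clause n k) + 1) ^ 2 ≤ 2 * (Z + 1) ^ 2 :=
      Nat.mul_le_mul_left _ (Nat.pow_le_pow_left (by omega) 2)
    have h2 : 2 * (Z + 1) ^ 2 + (Z * 3 + 2 * (Z + 1) ^ 2 + 1) + 1 ≤ 21 * Z ^ 2 := by nlinarith
    calc _ ≤ 21 * Z ^ 2 := by omega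
      _ ≤ (n + 1) ^ 1 * (n + 1) ^ (8 * k) := by
          apply Nat.mul_le_mul
          · rw [pow_one]
            omega
          · rw [hZ, ← pow_mul]
            calc (2 * n) ^ (2 * k * 2) ≤ ((n + 1) ^ 2) ^ (2 * k * 2) := by
                  apply Nat.pow_le_pow_left
                  nlinarith
              _ = (n + 1) ^ (8 * k) := by
                  rw [← pow_mul]
                  congr 1
                  ring
      _ = (n + 1) ^ (1 + 8 * k) := by rw [← pow_add]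
      _ ≤ (n + 1) ^ (K * k) := by
          apply Nat.pow_le_pow_right (by omega)
          nlinarith
  · -- soundness
    intro F hF hacc
    rw [hC3] at hacc
    obtain ⟨h1, h2⟩ := hacc
    have h3 := wk_sat hab ha1 hb1 hn0 F hF
    have h4 : T ≤ wk a b F := by
      apply hT2
      rw [hX, hY]
      calc (m * k.factorial) ^ 4 * (16 * 4 ^ k + 1)
          ≤ (F.ncard * k.factorial) ^ 4 * (16 * 4 ^ k + 1) := by
            apply Nat.mul_le_mul_right
            apply Nat.pow_le_pow_left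
            exact Nat.mul_le_mul_right _ h1
        _ ≤ 16 * 4 ^ k * ((2 * n) ^ (2 * k) * wk a b F) := h3
        _ = _ := by ring
    omega
  · -- completeness
    rcases lt_or_ge (Fintype.card (Clause n k)) m with hmE | hmE
    · rw [ncard_slice_of_lt m hmE, zero_mul]
      exact Nat.zero_le _
    have hkn : k ≤ n := by
      have h1 : k < 2 ^ k := Nat.lt_two_pow_self
      have h2 : 2 ^ k ≤ K ^ k := Nat.pow_le_pow_left (by omega) k
      have h3 : K ^ k ≤ D * K ^ k := Nat.le_mul_of_pos_left _ hD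
      omega
    have hE : 0 < Fintype.card (Clause n k) :=
      card_pos_of (V := Fin n) isCl (by omega) (Fintype.card_fin n).symm hkn
    have hm0 : 0 < m := by
      rcases Nat.eq_zero_or_pos m with h0 | h0
      · exfalso
        rw [h0] at hm
        have : 0 < D * (K * k) ^ k * n ^ (k + b) := by positivity
        omega
      · exact h0
    have hf1 : 1 ≤ k.factorial := Nat.factorial_pos k
    -- real numbers
    have hm2 : 768 * 4 ^ k * (D : ℝ) * (k : ℝ) ^ k * (2 * (n : ℝ)) ^ (k + b) ≤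
        ((m : ℝ) * (k.factorial : ℝ)) ^ 2 := by
      have h1 : 768 * 4 ^ k * D * k ^ k * (2 * n) ^ (k + b) ≤ (m * k.factorial) ^ 2 := by
        calc 768 * 4 ^ k * D * k ^ k * (2 * n) ^ (k + b)
            ≤ 768 ^ k * 4 ^ k * D * k ^ k * (4 ^ k * n ^ (k + b)) := by
              apply Nat.mul_le_mul
              · apply Nat.mul_le_mul_right
                apply Nat.mul_le_mul_right
                apply Nat.mul_le_mul_right
                exact Nat.le_self_pow (by omega) 768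
              · rw [mul_pow]
                apply Nat.mul_le_mul_right
                calc 2 ^ (k + b) ≤ 2 ^ (2 * k) := Nat.pow_le_pow_right (by norm_num) (by omega)
                  _ = 4 ^ k := by rw [pow_mul]; norm_num
          _ = D * (12288 * k) ^ k * n ^ (k + b) := by
              rw [show 12288 * k = 768 * 4 * 4 * k by ring, mul_pow, mul_pow, mul_pow]
              ring
          _ ≤ D * (K * k) ^ k * n ^ (k + b) := by
              apply Nat.mul_le_mul_right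
              apply Nat.mul_le_mul_left
              apply Nat.pow_le_pow_left
              apply Nat.mul_le_mul_right
              omega
          _ ≤ m ^ 2 := hm
          _ ≤ (m * k.factorial) ^ 2 :=
              Nat.pow_le_pow_left (Nat.le_mul_of_pos_right _ hf1) 2
      exact_mod_cast h1
    have hseq : (n : ℝ) * (2 * (n : ℝ)) ^ k ≤ (n : ℝ) * ((Fintype.card (Clause n k) : ℝ) *
        (k.factorial : ℝ)) + (k : ℝ) ^ 2 * (2 * (n : ℝ)) ^ k := by
      exact_mod_cast le_card_seqs (n := n) (k := k)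
    have hMk : (Fintype.card (Clause n k) : ℝ) * (k.factorial : ℝ) ≤ (2 * (n : ℝ)) ^ k := by
      have h1 : Fintype.card (Clause n k) * k.factorial ≤ (2 * n) ^ k := by
        rw [← card_seqs, ← card_fn n k]
        exact card_le_univ _
      exact_mod_cast h1
    have hnR : (D : ℝ) * 23040 ^ k ≤ n := by
      have h1 : D * 23040 ^ k ≤ n :=
        le_trans (Nat.mul_le_mul_left _ (Nat.pow_le_pow_left (by omega) k)) hn
      exact_mod_cast h1
    have hnum := walk_numbers (k := k) (b := b) (n := n) (m := m)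
      (M := Fintype.card (Clause n k)) (D := D) hk (by omega) (by exact_mod_cast hD)
      (by exact_mod_cast hE) (by exact_mod_cast hm0) (by exact_mod_cast hmE) hnR hseq hMk hm2
    have hMR : (0 : ℝ) < Fintype.card (Clause n k) := by exact_mod_cast hE
    have hsum := sum_wk (Ω := Sub (Clause n k) m)
      (z := fun ω : Sub (Clause n k) m => (ω.1 : Set (Clause n k)))
      (n := n) (a := a) (b := b) (k := k) hab ha1 hle hn0
      (ρ := (m : ℝ) / Fintype.card (Clause n k)) (by positivity)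
      (by
        rw [div_le_one hMR]
        exact_mod_cast hmE)
      (few_Sub m hmE hE)
    rw [Nat.card_eq_fintype_card, ncard_slice m fun F => ¬ Acc' C F, ← card_Sub]
    obtain ⟨μ, hμ⟩ : ∃ μ : ℝ, μ = ((m : ℝ) * (k.factorial : ℝ)) ^ 4 := ⟨_, rfl⟩
    have hμ0 : 0 < μ := by rw [hμ]; positivity
    rw [← hμ] at hnum
    obtain ⟨E₀, hE₀⟩ : ∃ E₀ : ℝ, E₀ = (2 * (n : ℝ)) ^ (2 * k) *
        ((m : ℝ) / Fintype.card (Clause n k)) ^ 4 +
        4 * (k : ℝ) ^ k * (2 * (n : ℝ)) ^ (k + b) * ((m : ℝ) / Fintype.card (Clause n k)) ^ 2 +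
        (k : ℝ) ^ k * (2 * (n : ℝ)) ^ k * ((m : ℝ) / Fintype.card (Clause n k)) := ⟨_, rfl⟩
    rw [← hE₀] at hnum hsum
    obtain ⟨P, hP⟩ : ∃ P : ℝ, P = (2 * (n : ℝ)) ^ (2 * k) := ⟨_, rfl⟩
    have hP0 : 0 < P := by rw [hP]; positivity
    obtain ⟨g, hg⟩ : ∃ g : ℝ, g = 16 * 4 ^ k := ⟨_, rfl⟩
    have hg0 : 0 < g := by rw [hg]; positivity
    obtain ⟨Ωc, hΩc⟩ : ∃ Ωc : ℝ, Ωc = Fintype.card (Sub (Clause n k) m) := ⟨_, rfl⟩
    have hΩ0 : 0 ≤ Ωc := by rw [hΩc]; positivity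
    -- all sets
    have hall : ∀ ω : Sub (Clause n k) m, μ ≤ P * (wk a b (ω.1 : Set (Clause n k)) : ℝ) := by
      intro ω
      have h1 := wk_ge hab hn0 (ω.1 : Set (Clause n k))
      rw [Set.ncard_coe_finset, ω.2] at h1
      rw [hμ, hP]
      exact_mod_cast h1
    -- rejected sets
    have hbad : ∀ ω : Sub (Clause n k) m, ¬ Acc' C (ω.1 : Set (Clause n k)) →
        μ * (1 + 1 / g) ≤ P * (wk a b (ω.1 : Set (Clause n k)) : ℝ) := by
      intro ω hω
      rw [hC3, Set.ncard_coe_finset, ω.2] at hω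
      have h1 : T ≤ wk a b (ω.1 : Set (Clause n k)) := by
        by_contra hcon
        exact hω ⟨le_rfl, by omega⟩
      have h2 : X ≤ Y * wk a b (ω.1 : Set (Clause n k)) :=
        hT1.trans (Nat.mul_le_mul_left _ h1)
      rw [hX, hY] at h2
      have h3 : μ * (g + 1) ≤ g * P * (wk a b (ω.1 : Set (Clause n k)) : ℝ) := by
        rw [hμ, hg, hP]
        exact_mod_cast h2
      have h4 : g * (μ * (1 + 1 / g)) ≤ g * (P * (wk a b (ω.1 : Set (Clause n k)) : ℝ)) := by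
        calc g * (μ * (1 + 1 / g)) = μ * (g + 1) := by
              field_simp
          _ ≤ _ := h3
          _ = _ := by ring
      exact le_of_mul_le_mul_left h4 hg0
    obtain ⟨Bd, hBd⟩ : ∃ Bd : Finset (Sub (Clause n k) m),
      Bd = univ.filter fun ω : Sub (Clause n k) m => ¬ Acc' C (ω.1 : Set (Clause n k)) := ⟨_, rfl⟩
    have hlow : Ωc * μ + (Bd.card : ℝ) * (μ * (1 / g)) ≤
        ∑ ω : Sub (Clause n k) m, P * (wk a b (ω.1 : Set (Clause n k)) : ℝ) := by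
      have h1 : Ωc * μ + (Bd.card : ℝ) * (μ * (1 / g)) =
          ∑ ω : Sub (Clause n k) m, (μ + if ω ∈ Bd then μ * (1 / g) else 0) := by
        rw [sum_add_distrib, sum_const, card_univ, nsmul_eq_mul, hΩc, sum_ite_mem, univ_inter,
          sum_const, nsmul_eq_mul]
      rw [h1]
      apply sum_le_sum
      intro ω _
      split_ifs with hω
      · rw [hBd, mem_filter] at hω
        refine le_trans (le_of_eq ?_) (hbad ω hω.2)
        ring
      · rw [add_zero]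
        exact hall ω
    have hup : ∑ ω : Sub (Clause n k) m, P * (wk a b (ω.1 : Set (Clause n k)) : ℝ) ≤
        Ωc * (μ * (1 + 1 / (g * D))) := by
      rw [← mul_sum]
      calc P * ∑ ω : Sub (Clause n k) m, (wk a b (ω.1 : Set (Clause n k)) : ℝ)
          ≤ P * (Ωc * E₀) := by
            apply mul_le_mul_of_nonneg_left _ hP0.le
            rw [hΩc]
            exact hsum
        _ = Ωc * (P * E₀) := by ring
        _ ≤ Ωc * (μ * (1 + 1 / (g * D))) := by
            apply mul_le_mul_of_nonneg_left _ hΩ0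
            rw [hP, hg]
            exact hnum
    have hD0 : (0 : ℝ) < D := by exact_mod_cast hD
    have hfin : (Bd.card : ℝ) * D ≤ Ωc := by
      have h1 := hlow.trans hup
      have h2 : (Bd.card : ℝ) * (μ * (1 / g)) ≤ Ωc * (μ * (1 / (g * D))) := by
        have h3 : Ωc * (μ * (1 + 1 / (g * D))) = Ωc * μ + Ωc * (μ * (1 / (g * D))) := by ring
        linarith
      have h4 : (μ / (g * D)) * ((Bd.card : ℝ) * D) ≤ (μ / (g * D)) * Ωc := by
        calc (μ / (g * D)) * ((Bd.card : ℝ) * D) = (Bd.card : ℝ) * (μ * (1 / g)) := by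
              field_simp
          _ ≤ _ := h2
          _ = _ := by ring
      exact le_of_mul_le_mul_left h4 (by positivity)
    have hfinN : Bd.card * D ≤ Fintype.card (Sub (Clause n k) m) := by
      rw [hΩc] at hfin
      exact_mod_cast hfin
    refine le_trans (Nat.mul_le_mul_right _ (le_of_eq ?_)) hfinN
    rw [hBd]
    exact card_filter_eq _ _ _ _ _ _ fun _ => Iff.rfl

end Pool.Agent.T9h16.Rand
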