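import Pool.Agent.T9h16.Rand3.Expect
import Pool.Agent.T9h16.Rand.Bool
import Pool.Agent.T9h16.Rand2.Facts3

/-!
A refuter with one NOT gate which counts closed walks of length four.
-/

set_option autoImplicit false
set_option linter.unusedSectionVars false

namespace Pool.Agent.T9h16.Rand

open Finset
open scoped Classical
open Pool.Agent.LN (Circuit base comp_and comp_not comp_card comp_wt true_mem_base
  false_mem_base)

variable {n a b k : ℕ}

/-- The sequences `u` and `w` form a clause of the input. -/
noncomputable def nfB (u : Fin a → Fin n × Bool) (w : Fin b → Fin n × Bool)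
    (x : Clause n k → Bool) : Bool := decide (NF {c | x c = true} u w)

theorem nfB_mem (u : Fin a → Fin n × Bool) (w : Fin b → Fin n × Bool) :
    nfB (k := k) u w ∈ base (Clause n k) := by
  by_cases h : ∃ c : Clause n k, Joins u w c
  · obtain ⟨c, hc⟩ := h
    refine Or.inl ⟨c, ?_⟩
    funext x
    unfold nfB
    rw [Bool.eq_iff_iff, decide_eq_true_eq]
    constructor
    · intro hx
      exact ⟨c, hx, hc⟩
    · rintro ⟨c', hc', hj⟩
      rw [hc.unique hj]
      exact hc'
  · refine Or.inr (Or.inr ?_)
    rw [Set.mem_singleton_iff]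
    funext x
    unfold nfB
    rw [decide_eq_false_iff_not]
    rintro ⟨c, -, hc⟩
    exact h ⟨c, hc⟩

/-- The four edges of a closed walk. -/
noncomputable def walkB (p : Quad n a b) (x : Clause n k → Bool) : Bool :=
  (nfB p.1.1 p.2.1 x && nfB p.1.1 p.2.2 x) && (nfB p.1.2 p.2.1 x && nfB p.1.2 p.2.2 x)

theorem exists_walk_circuit (a b m T : ℕ) : ∃ C : Circuit (Clause n k), C.nots ≤ 1 ∧
    C.size ≤ 2 * (Fintype.card (Clause n k) + 1) ^ 2 +
      (Fintype.card (Quad n a b) * 3 + 2 * (Fintype.card (Quad n a b) + 1) ^ 2 + 1) + 1 ∧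
    ∀ F : Set (Clause n k), Acc' C F ↔ m ≤ F.ncard ∧ wk a b F < T := by
  have hg : ∀ p ∈ (univ : Finset (Quad n a b)),
      Pool.Agent.LN.Comp (base (Clause n k)) 3 0 {walkB (k := k) p} := by
    intro p _
    exact (comp_and (nfB_mem _ _) (nfB_mem _ _)).and (comp_and (nfB_mem _ _) (nfB_mem _ _))
  have h1 := Pool.Agent.LN.Comp.biUnion _ hg
  rw [card_univ, mul_zero] at h1
  have h2 := comp_card (X := Clause n k → Bool)
    (A := base (Clause n k) ∪ ⋃ p ∈ (univ : Finset (Quad n a b)), {walkB (k := k) p})
    (Or.inl true_mem_base) (Or.inl false_mem_base) (univ : Finset (Quad n a b))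
    (fun p => walkB (k := k) p) (by
      intro p hp
      right
      simp only [Set.mem_iUnion, Set.mem_singleton_iff]
      exact ⟨p, hp, rfl⟩) T
  rw [card_univ] at h2
  have h3 := h1.trans' h2
  have h4 := h3.trans' (comp_not (A := base (Clause n k) ∪ {fun x =>
    decide (T ≤ ((univ : Finset (Quad n a b)).filter fun p => walkB p x = true).card)})
    (Or.inr rfl))
  have h5 := (comp_wt (∅ : Finset (Clause n k)) m).and h4
  obtain ⟨C, hC1, hC2, hC3⟩ := Pool.Agent.LN.exists_circuit h5
  refine ⟨C, by omega, hC1, fun F => ?_⟩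
  have hwt : Pool.Agent.LN.wt ∅ (fun c => decide (c ∈ F)) = F.ncard := by
    unfold Pool.Agent.LN.wt
    rw [← Set.ncard_coe_finset]
    congr 1
    ext c
    simp
  have hF : {c | (fun c => decide (c ∈ F)) c = true} = F := by
    ext c
    simp
  have hwk : ((univ : Finset (Quad n a b)).filter fun p =>
      walkB p (fun c => decide (c ∈ F)) = true).card = wk a b F := by
    unfold wk
    congr 1
    ext p
    simp only [mem_filter, mem_univ, true_and, walkB, nfB, Bool.and_eq_true, decide_eq_true_eq]
    rw [Set.ofPred_mem_eq]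
    tauto
  unfold Acc'
  rw [hC3]
  simp only [hwt, Bool.and_eq_true, Bool.not_eq_true', decide_eq_true_eq,
    decide_eq_false_iff_not, not_le]
  rw [hwk]

end Pool.Agent.T9h16.Rand
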