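import Pool.Agent.T9h16.Rand3.Walk
import Pool.Agent.T9h16.Rand.Main

/-!
Clauses as edges between sequences of literals.
-/

set_option autoImplicit false
set_option linter.unusedSectionVars false

namespace Pool.Agent.T9h16.Rand

open Finset
open scoped Classical

theorem card_image_eq {I L : Type} [Fintype I] [Fintype L] [DecidableEq I] [DecidableEq L]
    (S : Finset L)
    (h : Fintype.card I = S.card) :
    (univ.filter fun g : I → L => univ.image g = S).card = S.card.factorial := by
  obtain ⟨e⟩ : Nonempty (I ≃ S) := Fintype.card_eq.1 (by rw [h, Fintype.card_coe])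
  have h1 : Fintype.card (I ≃ S) = S.card.factorial := by rw [Fintype.card_equiv e, h]
  rw [← h1, ← card_univ]
  symm
  apply card_bij (fun (σ : I ≃ S) _ => fun i => (σ i : L))
  · intro σ _
    rw [mem_filter]
    refine ⟨mem_univ _, ?_⟩
    ext l
    rw [mem_image]
    constructor
    · rintro ⟨i, -, rfl⟩
      exact (σ i).2
    · intro hl
      exact ⟨σ.symm ⟨l, hl⟩, mem_univ _, by simp⟩
  · intro σ _ τ _ h
    ext i
    exact congrFun h i
  · intro g hg
    rw [mem_filter] at hg
    have hmem : ∀ i, g i ∈ S := fun i => hg.2 ▸ mem_image_of_mem _ (mem_univ i)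
    have hinj : Function.Injective g := by
      have h2 : (univ.image g).card = (univ : Finset I).card := by
        rw [hg.2, card_univ, h]
      have h3 := card_image_iff.1 h2
      intro i j hij
      exact h3 (mem_coe.2 (mem_univ i)) (mem_coe.2 (mem_univ j)) hij
    have hbij : Function.Bijective (fun i => (⟨g i, hmem i⟩ : S)) := by
      constructor
      · intro i j hij
        exact hinj (congrArg Subtype.val hij)
      · rintro ⟨l, hl⟩
        rw [← hg.2, mem_image] at hl
        obtain ⟨i, -, hi⟩ := hl
        exact ⟨i, Subtype.ext hi⟩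
    exact ⟨Equiv.ofBijective _ hbij, mem_univ _, rfl⟩

section
variable {n a b k : ℕ}

/-- The literals of the clause `c` are those of the sequences `u` and `w`. -/
def Joins (u : Fin a → Fin n × Bool) (w : Fin b → Fin n × Bool) (c : Clause n k) : Prop :=
  c.lits = univ.image u ∪ univ.image w

/-- The sequences `u` and `w` form a clause in `F`. -/
def NF (F : Set (Clause n k)) (u : Fin a → Fin n × Bool) (w : Fin b → Fin n × Bool) : Prop :=
  ∃ c ∈ F, Joins u w c

theorem Joins.unique {u : Fin a → Fin n × Bool} {w : Fin b → Fin n × Bool} {c c' : Clause n k}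
    (h : Joins u w c) (h' : Joins u w c') : c = c' :=
  lits_injective (h.trans h'.symm)

/-- The number of pairs of sequences for a clause. -/
theorem card_joins (hab : a + b = k) (c : Clause n k) :
    (univ.filter fun p : (Fin a → Fin n × Bool) × (Fin b → Fin n × Bool) =>
      Joins p.1 p.2 c).card = k.factorial := by
  have h1 := card_image_eq (I := Fin a ⊕ Fin b) (L := Fin n × Bool) c.lits (by
    rw [Fintype.card_sum, Fintype.card_fin, Fintype.card_fin, c.card_lits, hab])
  rw [c.card_lits] at h1
  rw [← h1]
  apply card_bij (fun p _ => Sum.elim p.1 p.2)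
  · rintro ⟨u, w⟩ hp
    rw [mem_filter] at hp ⊢
    refine ⟨mem_univ _, ?_⟩
    rw [hp.2]
    ext l
    simp only [mem_image, mem_univ, true_and, mem_union, Sum.exists, Sum.elim_inl, Sum.elim_inr]
  · rintro ⟨u, w⟩ _ ⟨u', w'⟩ _ h
    simp only at h
    have e1 : u = u' := by
      funext i
      exact congrFun h (Sum.inl i)
    have e2 : w = w' := by
      funext i
      exact congrFun h (Sum.inr i)
    rw [e1, e2]
  · intro g hg
    rw [mem_filter] at hg
    refine ⟨(fun i => g (Sum.inl i), fun i => g (Sum.inr i)), ?_, ?_⟩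
    · rw [mem_filter]
      refine ⟨mem_univ _, ?_⟩
      unfold Joins
      rw [← hg.2]
      ext l
      simp only [mem_image, mem_univ, true_and, mem_union, Sum.exists]
    · funext i
      rcases i with i | i <;> rfl

/-- The number of edges. -/
theorem card_NF (hab : a + b = k) (F : Set (Clause n k)) :
    (univ.filter fun p : (Fin a → Fin n × Bool) × (Fin b → Fin n × Bool) =>
      NF F p.1 p.2).card = F.ncard * k.factorial := by
  have hfin : F.Finite := Set.toFinite _
  have h1 : (univ.filter fun p : (Fin a → Fin n × Bool) × (Fin b → Fin n × Bool) =>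
      NF F p.1 p.2) = hfin.toFinset.biUnion fun c =>
        univ.filter fun p : (Fin a → Fin n × Bool) × (Fin b → Fin n × Bool) =>
          Joins p.1 p.2 c := by
    ext p
    simp only [mem_filter, mem_univ, true_and, mem_biUnion, Set.Finite.mem_toFinset]
    exact Iff.rfl
  rw [h1, card_biUnion, sum_congr rfl fun c _ => card_joins hab c, sum_const, smul_eq_mul,
    Set.ncard_eq_toFinset_card _ hfin]
  intro c _ c' _ hcc
  rw [Function.onFun, disjoint_left]
  intro p hp hp'
  rw [mem_filter] at hp hp'
  exact hcc (hp.2.unique hp'.2)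

/-- The number of closed walks of length four. -/
noncomputable def wk (a b : ℕ) (F : Set (Clause n k)) : ℕ :=
  (univ.filter fun p : ((Fin a → Fin n × Bool) × (Fin a → Fin n × Bool)) ×
    ((Fin b → Fin n × Bool) × (Fin b → Fin n × Bool)) => NF F p.1.1 p.2.1 ∧ NF F p.1.1 p.2.2 ∧
      NF F p.1.2 p.2.1 ∧ NF F p.1.2 p.2.2).card

theorem card_false (x : Fin n → Bool) (a : ℕ) :
    (univ.filter fun u : Fin a → Fin n × Bool => ∀ i, x (u i).1 ≠ (u i).2).card = n ^ a := by
  have h1 : (univ.filter fun l : Fin n × Bool => x l.1 ≠ l.2).card = n := by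
    have h2 : (univ.filter fun l : Fin n × Bool => x l.1 ≠ l.2) =
        univ.image fun v : Fin n => (v, !(x v)) := by
      ext ⟨v, c⟩
      simp only [mem_filter, mem_univ, true_and, mem_image, Prod.mk.injEq]
      constructor
      · intro h
        refine ⟨v, rfl, ?_⟩
        cases hx : x v <;> cases c <;> simp_all
      · rintro ⟨v', rfl, rfl⟩
        cases x v' <;> simp
    rw [h2, card_image_of_injective, card_univ, Fintype.card_fin]
    intro v v' h
    exact (Prod.mk.inj h).1
  have h3 : (univ.filter fun u : Fin a → Fin n × Bool => ∀ i, x (u i).1 ≠ (u i).2) =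
      Fintype.piFinset fun _ : Fin a => univ.filter fun l : Fin n × Bool => x l.1 ≠ l.2 := by
    ext u
    simp [Fintype.mem_piFinset]
  rw [h3, Fintype.card_piFinset_const, h1]

/-- A satisfiable formula has more closed walks. -/
theorem wk_sat (hab : a + b = k) (ha : 1 ≤ a) (hb : 1 ≤ b) (hn : 0 < n) (F : Set (Clause n k))
    (hF : Satisfiable F) :
    (F.ncard * k.factorial) ^ 4 * (16 * 4 ^ k + 1) ≤ 16 * 4 ^ k * ((2 * n) ^ (2 * k) * wk a b F) := by
  obtain ⟨x, hx⟩ := hF
  have hcU : Fintype.card (Fin a → Fin n × Bool) = (2 * n) ^ a := by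
    rw [Fintype.card_fun, Fintype.card_prod, Fintype.card_fin, Fintype.card_fin,
      Fintype.card_bool, mul_comm n 2]
  have hcW : Fintype.card (Fin b → Fin n × Bool) = (2 * n) ^ b := by
    rw [Fintype.card_fun, Fintype.card_prod, Fintype.card_fin, Fintype.card_fin,
      Fintype.card_bool, mul_comm n 2]
  have hhalf : ∀ j : ℕ, 1 ≤ j → (1 / 2 : ℝ) ^ j ≤ 1 / 2 := by
    intro j hj
    calc (1 / 2 : ℝ) ^ j ≤ (1 / 2) ^ 1 := pow_le_pow_of_le_one (by norm_num) (by norm_num) hj
      _ = _ := pow_one _
  have h := walks_gap (NF F (a := a) (b := b))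
    (univ.filter fun u : Fin a → Fin n × Bool => ∀ i, x (u i).1 ≠ (u i).2)
    (univ.filter fun u : Fin b → Fin n × Bool => ∀ i, x (u i).1 ≠ (u i).2)
    (by
      rintro u hu w hw ⟨c, hc, hj⟩
      rw [mem_filter] at hu hw
      obtain ⟨l, hl, hxl⟩ := hx c hc
      rw [hj, mem_union, mem_image, mem_image] at hl
      rcases hl with ⟨i, -, rfl⟩ | ⟨i, -, rfl⟩
      · exact hu.2 i hxl
      · exact hw.2 i hxl)
    ((1 / 2) ^ a) ((1 / 2) ^ b) (by positivity) (hhalf a ha) (by positivity) (hhalf b hb)
    (by rw [hcU]; positivity) (by rw [hcW]; positivity)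
    (by
      rw [card_false, hcU]
      push_cast
      rw [← mul_pow]
      congr 1
      ring)
    (by
      rw [card_false, hcW]
      push_cast
      rw [← mul_pow]
      congr 1
      ring)
  rw [card_NF hab, hcU, hcW, ← pow_add, hab] at h
  change _ ≤ (wk a b F : ℝ) * _ * _ at h
  have h4 : ((1 / 2 : ℝ) ^ k) ^ 2 = 1 / 4 ^ k := by
    rw [← pow_mul, mul_comm k 2, pow_mul, show ((1 : ℝ) / 2) ^ 2 = 1 / 4 by norm_num, one_div_pow]
  rw [h4] at h
  obtain ⟨e, he⟩ : ∃ e : ℕ, e = F.ncard * k.factorial := ⟨_, rfl⟩
  obtain ⟨q, hq⟩ : ∃ q : ℕ, q = wk a b F := ⟨_, rfl⟩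
  rw [← he, ← hq] at h
  rw [← he, ← hq]
  have h5 : (q : ℝ) * (((2 * n) ^ a : ℕ) : ℝ) ^ 2 * (((2 * n) ^ b : ℕ) : ℝ) ^ 2 =
      ((2 * n : ℕ) : ℝ) ^ (2 * k) * q := by
    push_cast
    rw [← pow_mul, ← pow_mul, mul_assoc, ← pow_add, ← add_mul, hab, mul_comm k 2]
    ring
  rw [h5] at h
  have h6 : (0 : ℝ) < 4 ^ k := by positivity
  have h7 : (e : ℝ) ^ 4 * (16 * 4 ^ k + 1) ≤
      16 * 4 ^ k * (((2 * n : ℕ) : ℝ) ^ (2 * k) * q) := by
    calc (e : ℝ) ^ 4 * (16 * 4 ^ k + 1) = 16 * 4 ^ k * ((e : ℝ) ^ 4 * (1 + 1 / 4 ^ k / 16)) := by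
          field_simp
      _ ≤ _ := mul_le_mul_of_nonneg_left h (by positivity)
  exact_mod_cast h7

/-- The number of closed walks is at least what it is in a regular graph. -/
theorem wk_ge (hab : a + b = k) (hn : 0 < n) (F : Set (Clause n k)) :
    (F.ncard * k.factorial) ^ 4 ≤ (2 * n) ^ (2 * k) * wk a b F := by
  have hcU : Fintype.card (Fin a → Fin n × Bool) = (2 * n) ^ a := by
    rw [Fintype.card_fun, Fintype.card_prod, Fintype.card_fin, Fintype.card_fin,
      Fintype.card_bool, mul_comm n 2]
  have hcW : Fintype.card (Fin b → Fin n × Bool) = (2 * n) ^ b := by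
    rw [Fintype.card_fun, Fintype.card_prod, Fintype.card_fin, Fintype.card_fin,
      Fintype.card_bool, mul_comm n 2]
  have hU : Nonempty (Fin a → Fin n × Bool) :=
    Fintype.card_pos_iff.1 (by rw [hcU]; positivity)
  have hW : Nonempty (Fin b → Fin n × Bool) :=
    Fintype.card_pos_iff.1 (by rw [hcW]; positivity)
  have h := walks_ge (NF F (a := a) (b := b))
  rw [card_NF hab, hcU, hcW] at h
  change _ ≤ (wk a b F : ℝ) * _ * _ at h
  obtain ⟨e, he⟩ : ∃ e : ℕ, e = F.ncard * k.factorial := ⟨_, rfl⟩
  obtain ⟨q, hq⟩ : ∃ q : ℕ, q = wk a b F := ⟨_, rfl⟩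
  rw [← he, ← hq] at h
  rw [← he, ← hq]
  have h5 : (q : ℝ) * (((2 * n) ^ a : ℕ) : ℝ) ^ 2 * (((2 * n) ^ b : ℕ) : ℝ) ^ 2 =
      ((2 * n : ℕ) : ℝ) ^ (2 * k) * q := by
    push_cast
    rw [← pow_mul, ← pow_mul, mul_assoc, ← pow_add, ← add_mul, hab, mul_comm k 2]
    ring
  rw [h5] at h
  exact_mod_cast h

/-- Sequences of `k` literals which form a clause. -/
theorem card_seqs : (univ.filter fun g : Fin k → Fin n × Bool =>
    Function.Injective fun i => (g i).1).card = Fintype.card (Clause n k) * k.factorial := by
  have h1 : (univ.filter fun g : Fin k → Fin n × Bool => Function.Injective fun i => (g i).1) =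
      (univ : Finset (Clause n k)).biUnion fun c =>
        univ.filter fun g : Fin k → Fin n × Bool => univ.image g = c.lits := by
    ext g
    simp only [mem_filter, mem_univ, true_and, mem_biUnion]
    constructor
    · intro hg
      have hinj : Function.Injective g := fun i j hij => hg (congrArg Prod.fst hij)
      refine ⟨⟨univ.image g, ?_, ?_⟩, rfl⟩
      · rw [card_image_of_injective _ hinj, card_univ, Fintype.card_fin]
      · intro l hl l' hl' h
        rw [mem_image] at hl hl'
        obtain ⟨i, -, rfl⟩ := hl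
        obtain ⟨j, -, rfl⟩ := hl'
        rw [hg h]
    · rintro ⟨c, hc⟩ i j hij
      have hinj : Function.Injective g := by
        have h2 : (univ.image g).card = (univ : Finset (Fin k)).card := by
          rw [hc, c.card_lits, card_univ, Fintype.card_fin]
        have h3 := card_image_iff.1 h2
        intro i j hij
        exact h3 (mem_coe.2 (mem_univ i)) (mem_coe.2 (mem_univ j)) hij
      apply hinj
      apply c.distinct _ _ _ _ hij
      · rw [← hc]
        exact mem_image_of_mem _ (mem_univ _)
      · rw [← hc]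
        exact mem_image_of_mem _ (mem_univ _)
  have h2 : ∀ c : Clause n k, (univ.filter fun g : Fin k → Fin n × Bool =>
      univ.image g = c.lits).card = k.factorial := by
    intro c
    rw [card_image_eq c.lits (by rw [Fintype.card_fin, c.card_lits]), c.card_lits]
  rw [h1, card_biUnion, sum_congr rfl fun c _ => h2 c, sum_const, smul_eq_mul, card_univ]
  intro c _ c' _ hcc
  rw [Function.onFun, disjoint_left]
  intro g hg hg'
  rw [mem_filter] at hg hg'
  exact hcc (lits_injective (hg.2.symm.trans hg'.2))

/-- Most sequences of literals form a clause. -/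
theorem le_card_seqs : n * (2 * n) ^ k ≤ n * (Fintype.card (Clause n k) * k.factorial) +
    k ^ 2 * (2 * n) ^ k := by
  have hall : Fintype.card (Fin k → Fin n × Bool) = (2 * n) ^ k := by
    rw [Fintype.card_fun, Fintype.card_prod, Fintype.card_fin, Fintype.card_fin,
      Fintype.card_bool, mul_comm n 2]
  have hpair : ∀ i j : Fin k, i ≠ j → (univ.filter fun g : Fin k → Fin n × Bool =>
      (g i).1 = (g j).1).card * n ≤ (2 * n) ^ k := by
    intro i j hij
    rw [← hall, ← card_univ (α := Fin k → Fin n × Bool)]
    have h1 : ((univ.filter fun g : Fin k → Fin n × Bool => (g i).1 = (g j).1) ×ˢ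
        (univ : Finset (Fin n))).card ≤ (univ : Finset (Fin k → Fin n × Bool)).card := by
      apply card_le_card_of_injOn (fun q => Function.update q.1 j (q.2, (q.1 j).2))
      · intro q _
        exact mem_coe.2 (mem_univ _)
      · rintro ⟨g, v⟩ hg ⟨g', v'⟩ hg' h
        simp only [coe_product, Set.mem_prod, mem_coe, mem_filter, mem_univ, true_and,
          and_true] at hg hg'
        simp only at h
        have h2 : ∀ l, l ≠ j → g l = g' l := by
          intro l hl
          have := congrFun h l
          rwa [Function.update_of_ne hl, Function.update_of_ne hl] at this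
        have h3 := congrFun h j
        rw [Function.update_self, Function.update_self, Prod.mk.injEq] at h3
        have h4 : g = g' := by
          funext l
          by_cases hl : l = j
          · rw [hl]
            apply Prod.ext
            · rw [← hg, ← hg', h2 i hij]
            · exact h3.2
          · exact h2 l hl
        rw [h4, h3.1]
    rw [card_product, card_univ, Fintype.card_fin] at h1
    exact h1
  have h1 : (univ.filter fun g : Fin k → Fin n × Bool =>
      ¬ Function.Injective fun i => (g i).1).card * n ≤ k ^ 2 * (2 * n) ^ k := by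
    have hsub : (univ.filter fun g : Fin k → Fin n × Bool =>
        ¬ Function.Injective fun i => (g i).1) ⊆
        ((univ : Finset (Fin k × Fin k)).filter fun p => p.1 ≠ p.2).biUnion fun p =>
          univ.filter fun g : Fin k → Fin n × Bool => (g p.1).1 = (g p.2).1 := by
      intro g hg
      rw [mem_filter] at hg
      have h2 := hg.2
      unfold Function.Injective at h2
      simp only [not_forall] at h2
      obtain ⟨i, j, h3, h4⟩ := h2
      rw [mem_biUnion]
      refine ⟨(i, j), ?_, ?_⟩
      · rw [mem_filter]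
        exact ⟨mem_univ _, h4⟩
      · rw [mem_filter]
        exact ⟨mem_univ _, h3⟩
    calc (univ.filter fun g : Fin k → Fin n × Bool =>
        ¬ Function.Injective fun i => (g i).1).card * n
        ≤ (∑ p ∈ (univ : Finset (Fin k × Fin k)).filter fun p => p.1 ≠ p.2,
          (univ.filter fun g : Fin k → Fin n × Bool => (g p.1).1 = (g p.2).1).card) * n :=
          Nat.mul_le_mul_right _ ((card_le_card hsub).trans card_biUnion_le)
      _ = ∑ p ∈ (univ : Finset (Fin k × Fin k)).filter fun p => p.1 ≠ p.2,
          (univ.filter fun g : Fin k → Fin n × Bool => (g p.1).1 = (g p.2).1).card * n :=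
          sum_mul _ _ _
      _ ≤ ∑ _p ∈ (univ : Finset (Fin k × Fin k)).filter fun p => p.1 ≠ p.2, (2 * n) ^ k := by
          apply sum_le_sum
          rintro ⟨i, j⟩ hp
          exact hpair i j (mem_filter.1 hp).2
      _ = ((univ : Finset (Fin k × Fin k)).filter fun p => p.1 ≠ p.2).card * (2 * n) ^ k := by
          rw [sum_const, smul_eq_mul]
      _ ≤ k ^ 2 * (2 * n) ^ k := by
          apply Nat.mul_le_mul_right
          refine (card_filter_le _ _).trans ?_
          rw [card_univ, Fintype.card_prod, Fintype.card_fin, sq]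
  have h2 : (univ.filter fun g : Fin k → Fin n × Bool =>
      Function.Injective fun i => (g i).1).card + (univ.filter fun g : Fin k → Fin n × Bool =>
      ¬ Function.Injective fun i => (g i).1).card = (2 * n) ^ k := by
    rw [card_filter_add_card_filter_not, card_univ, hall]
  rw [card_seqs] at h2
  rw [← h2] at h1 ⊢
  nlinarith

end

end Pool.Agent.T9h16.Rand
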