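import Mathlib

/-!
Closed walks of length four in bipartite graphs.
-/

set_option autoImplicit false
set_option linter.unusedSectionVars false

namespace Pool.Agent.T9h16.Rand

open Finset
open scoped Classical

section
variable {U W : Type} [Fintype U] [Fintype W]

/-- The sum of the squares of the codegrees is large if a function with mean zero is correlated. -/
theorem sq_codeg (x : U → W → ℝ) (f : U → ℝ) (hf : ∑ u, f u = 0) (S P : ℝ) (hS : 0 < S)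
    (hfS : ∑ u, f u ^ 2 = S) (hP : 0 < P) (hUP : (Fintype.card U : ℝ) = P) :
    (∑ w, (∑ u, x u w) ^ 2) ^ 2 / P ^ 2 + (∑ w, (∑ u, f u * x u w) ^ 2) ^ 2 / S ^ 2 ≤
      ∑ u, ∑ u', (∑ w, x u w * x u' w) ^ 2 := by
  set c : U → U → ℝ := fun u u' => ∑ w, x u w * x u' w with hc
  set A := ∑ w, (∑ u, x u w) ^ 2 with hA
  set B := ∑ w, (∑ u, f u * x u w) ^ 2 with hB
  have h1 : ∑ u, ∑ u', c u u' = A := by
    rw [hA]
    simp only [hc]
    calc ∑ u, ∑ u', ∑ w, x u w * x u' w = ∑ u, ∑ w, ∑ u', x u w * x u' w :=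
          sum_congr rfl fun u _ => sum_comm
      _ = ∑ w, ∑ u, ∑ u', x u w * x u' w := sum_comm
      _ = _ := by
          apply sum_congr rfl
          intro w _
          rw [sq, sum_mul_sum]
  have h2 : ∑ u, ∑ u', c u u' * (f u * f u') = B := by
    rw [hB]
    simp only [hc]
    calc ∑ u, ∑ u', (∑ w, x u w * x u' w) * (f u * f u')
        = ∑ u, ∑ u', ∑ w, (f u * x u w) * (f u' * x u' w) := by
          apply sum_congr rfl
          intro u _
          apply sum_congr rfl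
          intro u' _
          rw [sum_mul]
          apply sum_congr rfl
          intro w _
          ring
      _ = ∑ u, ∑ w, ∑ u', (f u * x u w) * (f u' * x u' w) :=
          sum_congr rfl fun u _ => sum_comm
      _ = ∑ w, ∑ u, ∑ u', (f u * x u w) * (f u' * x u' w) := sum_comm
      _ = _ := by
          apply sum_congr rfl
          intro w _
          rw [sq, sum_mul_sum]
  have h3 : ∑ u, ∑ u', f u * f u' = 0 := by
    rw [← sum_mul_sum, hf, zero_mul]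
  have h4 : ∑ u, ∑ u', (f u * f u') ^ 2 = S ^ 2 := by
    have : ∀ u u', (f u * f u') ^ 2 = f u ^ 2 * f u' ^ 2 := fun u u' => by ring
    simp only [this]
    rw [← sum_mul_sum, hfS, sq]
  have h5 : ∑ _u : U, ∑ _u' : U, (1 : ℝ) = P ^ 2 := by
    simp only [sum_const, card_univ, nsmul_eq_mul, mul_one]
    rw [hUP, sq]
  have key : 0 ≤ ∑ u, ∑ u', (c u u' - A / P ^ 2 - B / S ^ 2 * (f u * f u')) ^ 2 :=
    sum_nonneg fun u _ => sum_nonneg fun u' _ => sq_nonneg _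
  have hexp : ∑ u, ∑ u', (c u u' - A / P ^ 2 - B / S ^ 2 * (f u * f u')) ^ 2 =
      (∑ u, ∑ u', c u u' ^ 2) - 2 * (A / P ^ 2) * (∑ u, ∑ u', c u u')
        - 2 * (B / S ^ 2) * (∑ u, ∑ u', c u u' * (f u * f u'))
        + (A / P ^ 2) ^ 2 * (∑ _u : U, ∑ _u' : U, (1 : ℝ))
        + 2 * (A / P ^ 2) * (B / S ^ 2) * (∑ u, ∑ u', f u * f u')
        + (B / S ^ 2) ^ 2 * (∑ u, ∑ u', (f u * f u') ^ 2) := by
    simp only [mul_sum, ← sum_add_distrib, ← sum_sub_distrib]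
    apply sum_congr rfl
    intro u _
    apply sum_congr rfl
    intro u' _
    ring
  rw [hexp, h1, h2, h3, h4, h5] at key
  have e1 : A ^ 2 / P ^ 2 = 2 * (A / P ^ 2) * A - (A / P ^ 2) ^ 2 * P ^ 2 := by
    field_simp
    ring
  have e2 : B ^ 2 / S ^ 2 = 2 * (B / S ^ 2) * B - (B / S ^ 2) ^ 2 * S ^ 2 := by
    field_simp
    ring
  rw [e1, e2]
  linarith

/-- The number of closed walks of length four, as a sum. -/
theorem walks_eq (N : U → W → Prop) :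
    ((univ.filter fun p : (U × U) × (W × W) => N p.1.1 p.2.1 ∧ N p.1.1 p.2.2 ∧ N p.1.2 p.2.1 ∧
      N p.1.2 p.2.2).card : ℝ) =
      ∑ u, ∑ u', (∑ w, (if N u w then (1 : ℝ) else 0) * (if N u' w then (1 : ℝ) else 0)) ^ 2 := by
  rw [card_filter]
  push_cast
  rw [Fintype.sum_prod_type, Fintype.sum_prod_type]
  apply sum_congr rfl
  intro u _
  apply sum_congr rfl
  intro u' _
  rw [Fintype.sum_prod_type, sq, sum_mul_sum]
  apply sum_congr rfl
  intro w _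
  apply sum_congr rfl
  intro w' _
  by_cases h1 : N u w <;> by_cases h2 : N u w' <;> by_cases h3 : N u' w <;>
    by_cases h4 : N u' w' <;> simp [h1, h2, h3, h4]

theorem edges_eq (N : U → W → Prop) :
    ((univ.filter fun p : U × W => N p.1 p.2).card : ℝ) =
      ∑ w, ∑ u, (if N u w then (1 : ℝ) else 0) := by
  rw [card_filter]
  push_cast
  rw [Fintype.sum_prod_type, sum_comm]

/-- The number of closed walks is at least what it is in a regular graph. -/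
theorem walks_ge [Nonempty U] [Nonempty W] (N : U → W → Prop) :
    ((univ.filter fun p : U × W => N p.1 p.2).card : ℝ) ^ 4 ≤
      ((univ.filter fun p : (U × U) × (W × W) => N p.1.1 p.2.1 ∧ N p.1.1 p.2.2 ∧ N p.1.2 p.2.1 ∧
        N p.1.2 p.2.2).card : ℝ) * (Fintype.card U : ℝ) ^ 2 * (Fintype.card W : ℝ) ^ 2 := by
  rw [walks_eq, edges_eq]
  set x : U → W → ℝ := fun u w => if N u w then (1 : ℝ) else 0 with hx
  change (∑ w, ∑ u, x u w) ^ 4 ≤ (∑ u, ∑ u', (∑ w, x u w * x u' w) ^ 2) *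
    (Fintype.card U : ℝ) ^ 2 * (Fintype.card W : ℝ) ^ 2
  have h1 : (∑ w, ∑ u, x u w) ^ 2 ≤ (Fintype.card W : ℝ) * ∑ w, (∑ u, x u w) ^ 2 := by
    have := sq_sum_le_card_mul_sum_sq (s := (univ : Finset W)) (f := fun w => ∑ u, x u w)
    rwa [card_univ] at this
  have h2 : ∑ u, ∑ u', (∑ w, x u w * x u' w) = ∑ w, (∑ u, x u w) ^ 2 := by
    calc ∑ u, ∑ u', ∑ w, x u w * x u' w = ∑ u, ∑ w, ∑ u', x u w * x u' w :=
          sum_congr rfl fun u _ => sum_comm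
      _ = ∑ w, ∑ u, ∑ u', x u w * x u' w := sum_comm
      _ = _ := by
          apply sum_congr rfl
          intro w _
          rw [sq, sum_mul_sum]
  have h3 : (∑ u, ∑ u', (∑ w, x u w * x u' w)) ^ 2 ≤ (Fintype.card U : ℝ) ^ 2 *
      ∑ u, ∑ u', (∑ w, x u w * x u' w) ^ 2 := by
    have h4 := sq_sum_le_card_mul_sum_sq (s := (univ : Finset (U × U)))
      (f := fun p => ∑ w, x p.1 w * x p.2 w)
    rw [card_univ, Fintype.card_prod, Fintype.sum_prod_type, Fintype.sum_prod_type] at h4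
    push_cast at h4
    rw [sq (Fintype.card U : ℝ)]
    exact h4
  have h0 : 0 ≤ ∑ w, (∑ u, x u w) ^ 2 := sum_nonneg fun w _ => sq_nonneg _
  calc (∑ w, ∑ u, x u w) ^ 4 = ((∑ w, ∑ u, x u w) ^ 2) ^ 2 := by ring
    _ ≤ ((Fintype.card W : ℝ) * ∑ w, (∑ u, x u w) ^ 2) ^ 2 :=
        pow_le_pow_left₀ (sq_nonneg _) h1 2
    _ = (Fintype.card W : ℝ) ^ 2 * (∑ u, ∑ u', (∑ w, x u w * x u' w)) ^ 2 := by
        rw [h2]
        ring
    _ ≤ (Fintype.card W : ℝ) ^ 2 * ((Fintype.card U : ℝ) ^ 2 *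
        ∑ u, ∑ u', (∑ w, x u w * x u' w) ^ 2) := mul_le_mul_of_nonneg_left h3 (by positivity)
    _ = _ := by ring

/-- A bipartite graph without edges between two large sets has more closed walks. -/
theorem walks_gap (N : U → W → Prop) (U₀ : Finset U) (W₀ : Finset W)
    (hN : ∀ u ∈ U₀, ∀ w ∈ W₀, ¬ N u w) (α β : ℝ) (hα0 : 0 < α) (hα : α ≤ 1 / 2) (hβ0 : 0 < β)
    (hβ : β ≤ 1 / 2) (hU0 : 0 < Fintype.card U) (hW0 : 0 < Fintype.card W)
    (hU : (U₀.card : ℝ) = α * Fintype.card U) (hW : (W₀.card : ℝ) = β * Fintype.card W) :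
    ((univ.filter fun p : U × W => N p.1 p.2).card : ℝ) ^ 4 * (1 + (α * β) ^ 2 / 16) ≤
      ((univ.filter fun p : (U × U) × (W × W) => N p.1.1 p.2.1 ∧ N p.1.1 p.2.2 ∧ N p.1.2 p.2.1 ∧
        N p.1.2 p.2.2).card : ℝ) * (Fintype.card U : ℝ) ^ 2 * (Fintype.card W : ℝ) ^ 2 := by
  rw [walks_eq, edges_eq]
  set x : U → W → ℝ := fun u w => if N u w then (1 : ℝ) else 0 with hx
  obtain ⟨P, hP⟩ : ∃ P : ℝ, P = Fintype.card U := ⟨_, rfl⟩
  obtain ⟨R, hR⟩ : ∃ R : ℝ, R = Fintype.card W := ⟨_, rfl⟩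
  have hP0 : 0 < P := by rw [hP]; exact_mod_cast hU0
  have hR0 : 0 < R := by rw [hR]; exact_mod_cast hW0
  rw [← hP] at hU
  rw [← hR] at hW
  change (∑ w, ∑ u, x u w) ^ 4 * (1 + (α * β) ^ 2 / 16) ≤
    (∑ u, ∑ u', (∑ w, x u w * x u' w) ^ 2) * (Fintype.card U : ℝ) ^ 2 *
      (Fintype.card W : ℝ) ^ 2
  rw [← hP, ← hR]
  set f : U → ℝ := fun u => (if u ∈ U₀ then 1 else 0) - α with hf
  have hf0 : ∑ u, f u = 0 := by
    simp only [hf]
    rw [sum_sub_distrib, sum_const, card_univ, nsmul_eq_mul, ← hP, sum_ite_mem, univ_inter,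
      sum_const, nsmul_eq_mul, mul_one, hU]
    ring
  obtain ⟨S, hS⟩ : ∃ S : ℝ, S = ∑ u, f u ^ 2 := ⟨_, rfl⟩
  have hSeq : S = α * (1 - α) * P := by
    have h1 : ∀ u, f u ^ 2 = (1 - 2 * α) * (if u ∈ U₀ then (1 : ℝ) else 0) + α ^ 2 := by
      intro u
      simp only [hf]
      split_ifs <;> ring
    rw [hS, sum_congr rfl fun u _ => h1 u, sum_add_distrib, ← mul_sum, sum_const, card_univ,
      nsmul_eq_mul, ← hP, sum_ite_mem, univ_inter, sum_const, nsmul_eq_mul, mul_one, hU]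
    ring
  have hS0 : 0 < S := by
    rw [hSeq]
    have : 0 < 1 - α := by linarith
    positivity
  have hSle : S ≤ α * P := by
    rw [hSeq]
    have : 0 < α * P := by positivity
    nlinarith
  have key := sq_codeg x f hf0 S P hS0 hS.symm hP0 hP.symm
  obtain ⟨Q, hQ⟩ : ∃ Q : ℝ, Q = ∑ u, ∑ u', (∑ w, x u w * x u' w) ^ 2 := ⟨_, rfl⟩
  obtain ⟨A, hA⟩ : ∃ A : ℝ, A = ∑ w, (∑ u, x u w) ^ 2 := ⟨_, rfl⟩
  obtain ⟨B, hB⟩ : ∃ B : ℝ, B = ∑ w, (∑ u, f u * x u w) ^ 2 := ⟨_, rfl⟩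
  rw [← hQ, ← hA, ← hB] at key
  rw [← hQ]
  obtain ⟨e, he⟩ : ∃ e : ℝ, e = ∑ w, ∑ u, x u w := ⟨_, rfl⟩
  rw [← he]
  -- degrees in `W₀`
  obtain ⟨T, hT⟩ : ∃ T : ℝ, T = ∑ w ∈ W₀, ∑ u, x u w := ⟨_, rfl⟩
  obtain ⟨T2, hT2⟩ : ∃ T2 : ℝ, T2 = ∑ w ∈ W₀, (∑ u, x u w) ^ 2 := ⟨_, rfl⟩
  have hBT : α ^ 2 * T2 ≤ B := by
    rw [hT2, hB, mul_sum]
    refine le_trans (le_of_eq ?_) (sum_le_sum_of_subset_of_nonneg (subset_univ W₀)
      fun w _ _ => sq_nonneg _)
    apply sum_congr rfl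
    intro w hw
    have h1 : ∑ u, f u * x u w = - α * ∑ u, x u w := by
      rw [mul_sum]
      apply sum_congr rfl
      intro u _
      simp only [hf, hx]
      by_cases hu : u ∈ U₀
      · rw [if_neg (hN u hu w hw)]
        ring
      · rw [if_neg hu]
        ring
    rw [h1]
    ring
  have hTT : T ^ 2 ≤ (β * R) * T2 := by
    have := sq_sum_le_card_mul_sum_sq (s := W₀) (f := fun w => ∑ u, x u w)
    rw [← hT, ← hT2, hW] at this
    exact this
  have hcompl : (e - T) ^ 2 ≤ ((1 - β) * R) * A := by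
    have h1 := sq_sum_le_card_mul_sum_sq (s := W₀ᶜ) (f := fun w => ∑ u, x u w)
    have h2 : ∑ w ∈ W₀ᶜ, ∑ u, x u w = e - T := by
      rw [he, hT, ← sum_compl_add_sum W₀]
      ring
    have h3 : ∑ w ∈ W₀ᶜ, (∑ u, x u w) ^ 2 ≤ A := by
      rw [hA]
      exact sum_le_sum_of_subset_of_nonneg (subset_univ _) fun w _ _ => sq_nonneg _
    have h4 : ((W₀ᶜ).card : ℝ) = (1 - β) * R := by
      have h5 := card_compl_add_card W₀
      have h6 : ((W₀ᶜ).card : ℝ) + W₀.card = Fintype.card W := by exact_mod_cast h5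
      rw [hW, ← hR] at h6
      linarith
    rw [h2, h4] at h1
    refine h1.trans (mul_le_mul_of_nonneg_left h3 ?_)
    have : 0 < 1 - β := by linarith
    positivity
  have heA : e ^ 2 ≤ R * A := by
    have := sq_sum_le_card_mul_sum_sq (s := (univ : Finset W)) (f := fun w => ∑ u, x u w)
    rw [← he, ← hA, card_univ, ← hR] at this
    exact this
  have hA0 : 0 ≤ A := by rw [hA]; exact sum_nonneg fun w _ => sq_nonneg _
  have hT20 : 0 ≤ T2 := by rw [hT2]; exact sum_nonneg fun w _ => sq_nonneg _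
  have he0 : 0 ≤ e := by
    rw [he]
    apply sum_nonneg
    intro w _
    apply sum_nonneg
    intro u _
    simp only [hx]
    split_ifs <;> norm_num
  have hB0 : 0 ≤ B := le_trans (by positivity) hBT
  -- `Q P ^ 2 ≥ A ^ 2 + α ^ 2 T2 ^ 2`
  have hQP : A ^ 2 + α ^ 2 * T2 ^ 2 ≤ Q * P ^ 2 := by
    have h1 : (α ^ 2 * T2) ^ 2 / (α * P) ^ 2 ≤ B ^ 2 / S ^ 2 := by
      apply div_le_div₀ (sq_nonneg _) (pow_le_pow_left₀ (by positivity) hBT 2) (by positivity)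
      exact pow_le_pow_left₀ hS0.le hSle 2
    have h2 : A ^ 2 / P ^ 2 + (α ^ 2 * T2) ^ 2 / (α * P) ^ 2 ≤ Q := by linarith
    have h3 : A ^ 2 / P ^ 2 + (α ^ 2 * T2) ^ 2 / (α * P) ^ 2 =
        (A ^ 2 + α ^ 2 * T2 ^ 2) / P ^ 2 := by
      field_simp
    rw [h3, div_le_iff₀ (by positivity)] at h2
    exact h2
  suffices h : e ^ 4 * (1 + (α * β) ^ 2 / 16) ≤ (A ^ 2 + α ^ 2 * T2 ^ 2) * R ^ 2 by
    refine h.trans (mul_le_mul_of_nonneg_right hQP (by positivity))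
  rcases le_or_gt (β * e / 2) T with hcase | hcase
  · -- many edges at `W₀`
    have h1 : β * e ^ 2 / 4 ≤ R * T2 := by
      have h2 : (β * e / 2) ^ 2 ≤ β * (R * T2) := by
        calc (β * e / 2) ^ 2 ≤ T ^ 2 := pow_le_pow_left₀ (by positivity) hcase 2
          _ ≤ (β * R) * T2 := hTT
          _ = _ := by ring
      have h3 : β * (β * e ^ 2 / 4) ≤ β * (R * T2) := by
        refine le_trans (le_of_eq ?_) h2
        ring
      exact le_of_mul_le_mul_left h3 hβ0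
    have h4 : (e ^ 2) ^ 2 ≤ (R * A) ^ 2 := pow_le_pow_left₀ (sq_nonneg _) heA 2
    have h5 : (β * e ^ 2 / 4) ^ 2 ≤ (R * T2) ^ 2 := pow_le_pow_left₀ (by positivity) h1 2
    have h6 := mul_le_mul_of_nonneg_left h5 (sq_nonneg α)
    calc e ^ 4 * (1 + (α * β) ^ 2 / 16) = (e ^ 2) ^ 2 + α ^ 2 * (β * e ^ 2 / 4) ^ 2 := by ring
      _ ≤ (R * A) ^ 2 + α ^ 2 * (R * T2) ^ 2 := add_le_add h4 h6
      _ = _ := by ring
  · -- few edges at `W₀`
    have h1 : e ^ 2 * (1 - β / 2) ^ 2 ≤ (1 - β) * (R * A) := by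
      calc e ^ 2 * (1 - β / 2) ^ 2 = (e - β * e / 2) ^ 2 := by ring
        _ ≤ (e - T) ^ 2 := by
            apply pow_le_pow_left₀
            · have : β * e ≤ 1 * e := mul_le_mul_of_nonneg_right (by linarith) he0
              linarith
            · linarith
        _ ≤ ((1 - β) * R) * A := hcompl
        _ = _ := by ring
    have h2 : e ^ 2 * (1 + β ^ 2 / 4) ≤ R * A := by
      have hb : 0 < 1 - β := by linarith
      have h3 : (1 - β) * (e ^ 2 * (1 + β ^ 2 / 4)) ≤ (1 - β) * (R * A) := by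
        refine le_trans ?_ h1
        have h4 : (1 - β) * (1 + β ^ 2 / 4) ≤ (1 - β / 2) ^ 2 := by nlinarith [pow_pos hβ0 3]
        calc (1 - β) * (e ^ 2 * (1 + β ^ 2 / 4)) = e ^ 2 * ((1 - β) * (1 + β ^ 2 / 4)) := by ring
          _ ≤ e ^ 2 * (1 - β / 2) ^ 2 := mul_le_mul_of_nonneg_left h4 (sq_nonneg _)
      exact le_of_mul_le_mul_left h3 hb
    have h5 : (e ^ 2 * (1 + β ^ 2 / 4)) ^ 2 ≤ (R * A) ^ 2 :=
      pow_le_pow_left₀ (by positivity) h2 2
    have h6 : 1 + (α * β) ^ 2 / 16 ≤ (1 + β ^ 2 / 4) ^ 2 := by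
      have h7 : α ^ 2 ≤ 1 := by nlinarith
      have h8 : (α * β) ^ 2 ≤ β ^ 2 := by
        rw [mul_pow]
        nlinarith [sq_nonneg β]
      nlinarith [sq_nonneg β, sq_nonneg (β ^ 2)]
    calc e ^ 4 * (1 + (α * β) ^ 2 / 16) ≤ e ^ 4 * (1 + β ^ 2 / 4) ^ 2 :=
          mul_le_mul_of_nonneg_left h6 (by positivity)
      _ = (e ^ 2 * (1 + β ^ 2 / 4)) ^ 2 := by ring
      _ ≤ (R * A) ^ 2 := h5
      _ ≤ _ := by
          have : 0 ≤ α ^ 2 * T2 ^ 2 * R ^ 2 := by positivity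
          nlinarith

end

end Pool.Agent.T9h16.Rand
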